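import Mathlib

namespace Pool.Agent.Helper57.PC

/-- A nontrivial zero of the Riemann zeta function. -/
def IsNontrivialZero (ρ : ℂ) : Prop := riemannZeta ρ = 0 ∧ 0 < ρ.re ∧ ρ.re < 1

/-- The multiplicity of a zero of the Riemann zeta function (its order of vanishing). -/
noncomputable def mult (ρ : ℂ) : ℕ := analyticOrderNatAt riemannZeta ρ

/-- The nontrivial zeros with ordinate in [0,T]. -/
def zerosUpTo (T : ℝ) : Set ℂ := {ρ | IsNontrivialZero ρ ∧ 0 ≤ ρ.im ∧ ρ.im ≤ T}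

/-- N(T;α,β): the number of ordered pairs of ordinates in [0,T], counted with multiplicity, whose
difference times log T / (2π) lies in [α,β]. -/
noncomputable def pairCount (T α β : ℝ) : ℝ :=
  ∑ᶠ p ∈ {p : ℂ × ℂ | p.1 ∈ zerosUpTo T ∧ p.2 ∈ zerosUpTo T ∧
    (p.1.im - p.2.im) * Real.log T / (2 * Real.pi) ∈ Set.Icc α β},
    ((mult p.1 : ℝ) * (mult p.2 : ℝ))

/-- Montgomery's density F(u) = 1 - (sin(πu)/(πu))². -/
noncomputable def pcDensity (u : ℝ) : ℝ :=
  1 - (Real.sin (Real.pi * u) / (Real.pi * u)) ^ 2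

end Pool.Agent.Helper57.PC
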