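import Mathlib

set_option autoImplicit false

namespace Pool.Agent.Helper57.Pade

open Finset intervalIntegral MeasureTheory

/-- The Beta type integral behind the Pade approximation of a power. -/
noncomputable def J (x y : ℝ) (m N : ℕ) : ℝ :=
  ∫ w in x..y, (w - x) ^ m * (y - w) ^ m * w ^ N

/-- Common denominator. -/
def D (N m : ℕ) : ℕ := ∏ s ∈ range (2 * m + 1), (N + 1 + s)

lemma D_pos (N m : ℕ) : 0 < D N m := by
  unfold D
  exact prod_pos (fun s _ => by omega)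

lemma D_le (N m : ℕ) : D N m ≤ (N + 2 * m + 1) ^ (2 * m + 1) := by
  unfold D
  calc ∏ s ∈ range (2 * m + 1), (N + 1 + s)
      ≤ ∏ s ∈ range (2 * m + 1), (N + 2 * m + 1) := by
        apply prod_le_prod
        · intro i _; omega
        · intro i hi; rw [mem_range] at hi; omega
    _ = (N + 2 * m + 1) ^ (2 * m + 1) := by simp

lemma dvd_D (N m i l : ℕ) (hi : i ≤ m) (hl : l ≤ m) : (N + 1 + (i + l)) ∣ D N m := by
  unfold D
  exact dvd_prod_of_mem (fun s => N + 1 + s) (by rw [mem_range]; omega)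

/-- the sign/coeff -/
def e (N m i l : ℕ) : ℕ := D N m / (N + 1 + (i + l))

lemma e_le (N m i l : ℕ) : e N m i l ≤ D N m := Nat.div_le_self _ _

lemma e_mul (N m i l : ℕ) (hi : i ≤ m) (hl : l ≤ m) :
    (e N m i l : ℝ) = (D N m : ℝ) / (N + 1 + (i + l)) := by
  unfold e
  rw [Nat.cast_div (dvd_D N m i l hi hl)]
  · push_cast; ring
  · positivity

/-- numerator form -/
def Q (x y : ℕ) (m N : ℕ) : ℤ :=
  ∑ i ∈ range (m + 1), ∑ l ∈ range (m + 1),
    ((-1) ^ (m - i) * (-1) ^ l * (m.choose i : ℤ) * (m.choose l : ℤ) * x ^ (m - i) * y ^ i * e N m i l)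

/-- denominator form -/
def P (x y : ℕ) (m N : ℕ) : ℤ :=
  ∑ i ∈ range (m + 1), ∑ l ∈ range (m + 1),
    ((-1) ^ (m - i) * (-1) ^ l * (m.choose i : ℤ) * (m.choose l : ℤ) * x ^ l * y ^ (m - l) * e N m i l)

lemma J_expand (x y : ℝ) (m N : ℕ) :
    J x y m N = ∑ i ∈ range (m + 1), ∑ l ∈ range (m + 1),
      ((-1) ^ (m - i) * (-1) ^ l * (m.choose i : ℝ) * (m.choose l : ℝ) * x ^ (m - i) * y ^ (m - l)) *
        ((y ^ (N + 1 + (i + l)) - x ^ (N + 1 + (i + l))) / (N + 1 + (i + l))) := by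
  unfold J
  have h : ∀ w : ℝ, (w - x) ^ m * (y - w) ^ m * w ^ N =
      ∑ i ∈ range (m + 1), ∑ l ∈ range (m + 1),
      ((-1) ^ (m - i) * (-1) ^ l * (m.choose i : ℝ) * (m.choose l : ℝ) * x ^ (m - i) * y ^ (m - l)) *
        w ^ (N + (i + l)) := by
    intro w
    have h1 : (w - x) ^ m = ∑ i ∈ range (m + 1), w ^ i * (-x) ^ (m - i) * (m.choose i : ℝ) := by
      rw [sub_eq_add_neg, add_pow]
    have h2 : (y - w) ^ m = ∑ l ∈ range (m + 1), (-w) ^ l * y ^ (m - l) * (m.choose l : ℝ) := by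
      rw [sub_eq_add_neg, add_comm, add_pow]
    rw [h1, h2, sum_mul_sum, sum_mul]
    refine sum_congr rfl (fun i _ => ?_)
    rw [sum_mul]
    refine sum_congr rfl (fun l _ => ?_)
    rw [neg_pow x, neg_pow w, pow_add w N, pow_add w i]
    ring
  simp_rw [h]
  rw [intervalIntegral.integral_finsetSum]
  · refine sum_congr rfl (fun i _ => ?_)
    rw [intervalIntegral.integral_finsetSum]
    · refine sum_congr rfl (fun l _ => ?_)
      rw [intervalIntegral.integral_const_mul, integral_pow]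
      push_cast
      congr 2
      · congr 1 <;> ring
      · ring
    · intro l _
      apply Continuous.intervalIntegrable
      fun_prop
  · intro i _
    apply Continuous.intervalIntegrable
    fun_prop

lemma D_mul_J (x y : ℕ) (m N : ℕ) :
    (D N m : ℝ) * J x y m N = (Q x y m N : ℝ) * (y : ℝ) ^ (N + m + 1) - (P x y m N : ℝ) * (x : ℝ) ^ (N + m + 1) := by
  rw [J_expand]
  unfold Q P
  push_cast
  rw [mul_sum, sum_mul, sum_mul, ← sum_sub_distrib]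
  refine sum_congr rfl (fun i hi => ?_)
  rw [mul_sum, sum_mul, sum_mul, ← sum_sub_distrib]
  refine sum_congr rfl (fun l hl => ?_)
  rw [mem_range] at hi hl
  rw [e_mul N m i l (by omega) (by omega)]
  have hy : (y:ℝ) ^ (m - l) * (y:ℝ) ^ (N + 1 + (i + l)) = (y:ℝ) ^ i * (y:ℝ) ^ (N + m + 1) := by
    rw [← pow_add, ← pow_add]; congr 1; omega
  have hx : (x:ℝ) ^ (m - i) * (x:ℝ) ^ (N + 1 + (i + l)) = (x:ℝ) ^ l * (x:ℝ) ^ (N + m + 1) := by
    rw [← pow_add, ← pow_add]; congr 1; omega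
  generalize hd : (D N m : ℝ) / ((N:ℝ) + 1 + (i + l)) = q
  have hd' : (D N m : ℝ) * (((y:ℝ) ^ (N + 1 + (i + l)) - (x:ℝ) ^ (N + 1 + (i + l))) / ((N:ℝ) + 1 + (i + l)))
      = q * ((y:ℝ) ^ (N + 1 + (i + l)) - (x:ℝ) ^ (N + 1 + (i + l))) := by
    rw [← hd]; ring
  calc (D N m : ℝ) * ((-1) ^ (m - i) * (-1) ^ l * (m.choose i : ℝ) * (m.choose l : ℝ) * (x:ℝ) ^ (m - i) * (y:ℝ) ^ (m - l) *
        (((y:ℝ) ^ (N + 1 + (i + l)) - (x:ℝ) ^ (N + 1 + (i + l))) / ((N:ℝ) + 1 + (i + l))))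
      = ((-1) ^ (m - i) * (-1) ^ l * (m.choose i : ℝ) * (m.choose l : ℝ)) * (x:ℝ) ^ (m - i) * (y:ℝ) ^ (m - l) *
        ((D N m : ℝ) * (((y:ℝ) ^ (N + 1 + (i + l)) - (x:ℝ) ^ (N + 1 + (i + l))) / ((N:ℝ) + 1 + (i + l)))) := by ring
    _ = ((-1) ^ (m - i) * (-1) ^ l * (m.choose i : ℝ) * (m.choose l : ℝ)) * q *
        ((x:ℝ) ^ (m - i) * ((y:ℝ) ^ (m - l) * (y:ℝ) ^ (N + 1 + (i + l)))
          - (y:ℝ) ^ (m - l) * ((x:ℝ) ^ (m - i) * (x:ℝ) ^ (N + 1 + (i + l)))) := by rw [hd']; ring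
    _ = _ := by rw [hy, hx]; ring

lemma abs_Q_le (x y m N : ℕ) (hxy : x ≤ y) :
    |(Q x y m N : ℝ)| ≤ (D N m : ℝ) * (4 * y) ^ m := by
  unfold Q
  push_cast
  calc |∑ i ∈ range (m + 1), ∑ l ∈ range (m + 1),
      ((-1:ℝ) ^ (m - i) * (-1) ^ l * (m.choose i : ℝ) * (m.choose l : ℝ) * (x:ℝ) ^ (m - i) * (y:ℝ) ^ i * (e N m i l : ℝ))|
      ≤ ∑ i ∈ range (m + 1), ∑ l ∈ range (m + 1),
        ((m.choose i : ℝ) * (m.choose l : ℝ) * ((y:ℝ) ^ m * (D N m : ℝ))) := by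
        refine (abs_sum_le_sum_abs _ _).trans (sum_le_sum (fun i hi => ?_))
        refine (abs_sum_le_sum_abs _ _).trans (sum_le_sum (fun l hl => ?_))
        rw [mem_range] at hi hl
        simp only [abs_mul, abs_pow, abs_neg, abs_one, one_pow, one_mul, Nat.abs_cast]
        have h1 : (x:ℝ) ^ (m - i) * (y:ℝ) ^ i ≤ (y:ℝ) ^ m := by
          calc (x:ℝ) ^ (m - i) * (y:ℝ) ^ i ≤ (y:ℝ) ^ (m - i) * (y:ℝ) ^ i := by
                gcongr
            _ = (y:ℝ) ^ m := by rw [← pow_add]; congr 1; omega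
        have h2 : (e N m i l : ℝ) ≤ (D N m : ℝ) := by exact_mod_cast e_le N m i l
        have h3 : (x:ℝ) ^ (m - i) * (y:ℝ) ^ i * (e N m i l : ℝ) ≤ (y:ℝ) ^ m * (D N m : ℝ) := by
          gcongr
        calc (m.choose i : ℝ) * (m.choose l : ℝ) * (x:ℝ) ^ (m - i) * (y:ℝ) ^ i * (e N m i l : ℝ)
            = (m.choose i : ℝ) * (m.choose l : ℝ) * ((x:ℝ) ^ (m - i) * (y:ℝ) ^ i * (e N m i l : ℝ)) := by ring
          _ ≤ _ := by gcongr
    _ = (D N m : ℝ) * (4 * y) ^ m := by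
        have hs : (∑ i ∈ range (m + 1), (m.choose i : ℝ)) = 2 ^ m := by
          exact_mod_cast Nat.sum_range_choose m
        calc ∑ i ∈ range (m + 1), ∑ l ∈ range (m + 1),
              ((m.choose i : ℝ) * (m.choose l : ℝ) * ((y:ℝ) ^ m * (D N m : ℝ)))
            = (∑ i ∈ range (m + 1), (m.choose i : ℝ)) * (∑ l ∈ range (m + 1), (m.choose l : ℝ)) * ((y:ℝ) ^ m * (D N m : ℝ)) := by
              rw [sum_mul_sum, sum_mul]
              refine sum_congr rfl (fun i _ => ?_)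
              rw [sum_mul]
          _ = _ := by
              rw [hs, mul_pow]
              have : (4:ℝ) ^ m = 2 ^ m * 2 ^ m := by rw [← mul_pow]; norm_num
              rw [this]; ring

lemma J_le (x y : ℕ) (m N : ℕ) (hxy : x ≤ y) :
    J x y m N ≤ ((y:ℝ) - x) ^ (2 * m + 1) * (y:ℝ) ^ N := by
  have hxy' : (x:ℝ) ≤ y := by exact_mod_cast hxy
  unfold J
  have hle : ∫ w in (x:ℝ)..y, (w - x) ^ m * (y - w) ^ m * w ^ N ≤
      ∫ w in (x:ℝ)..y, ((y:ℝ) - x) ^ (2 * m) * (y:ℝ) ^ N := by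
    apply intervalIntegral.integral_mono_on hxy'
    · apply Continuous.intervalIntegrable; fun_prop
    · apply Continuous.intervalIntegrable; fun_prop
    · intro w hw
      obtain ⟨hw1, hw2⟩ := hw
      have hx0 : (0:ℝ) ≤ x := Nat.cast_nonneg x
      have h1 : (w - x) ^ m ≤ ((y:ℝ) - x) ^ m := by
        apply pow_le_pow_left₀ (by linarith); linarith
      have h2 : (y - w) ^ m ≤ ((y:ℝ) - x) ^ m := by
        apply pow_le_pow_left₀ (by linarith); linarith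
      have h3 : w ^ N ≤ (y:ℝ) ^ N := by
        apply pow_le_pow_left₀ (by linarith); linarith
      have h0 : 0 ≤ (y - w) ^ m := pow_nonneg (by linarith) _
      have h0' : 0 ≤ w ^ N := pow_nonneg (by linarith) _
      have h0'' : 0 ≤ ((y:ℝ) - x) ^ m := pow_nonneg (by linarith) _
      calc (w - x) ^ m * (y - w) ^ m * w ^ N ≤ ((y:ℝ) - x) ^ m * ((y:ℝ) - x) ^ m * (y:ℝ) ^ N := by
            gcongr
        _ = ((y:ℝ) - x) ^ (2 * m) * (y:ℝ) ^ N := by rw [two_mul, pow_add]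
  refine hle.trans (le_of_eq ?_)
  rw [intervalIntegral.integral_const, smul_eq_mul, pow_succ]
  ring

lemma le_J (x y : ℕ) (m N : ℕ) (hxy : x + 1 ≤ y) :
    (x:ℝ) ^ N / (2 * 16 ^ m) ≤ J x y m N := by
  have hxy' : (x:ℝ) + 1 ≤ y := by exact_mod_cast hxy
  have hx0 : (0:ℝ) ≤ x := Nat.cast_nonneg x
  unfold J
  have hnn : ∀ w ∈ Set.Icc (x:ℝ) y, 0 ≤ (w - x) ^ m * (y - w) ^ m * w ^ N := by
    intro w hw
    obtain ⟨h1, h2⟩ := hw
    have a1 : 0 ≤ w - x := by linarith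
    have a2 : 0 ≤ y - w := by linarith
    have a3 : 0 ≤ w := by linarith
    positivity
  have hint : ∀ a b : ℝ, IntervalIntegrable (fun w : ℝ => (w - x) ^ m * (y - w) ^ m * w ^ N) volume a b := by
    intro a b
    apply Continuous.intervalIntegrable; fun_prop
  have hsub : ∫ w in ((x:ℝ) + 1/4)..((x:ℝ) + 3/4), (w - x) ^ m * (y - w) ^ m * w ^ N ≤
      ∫ w in (x:ℝ)..y, (w - x) ^ m * (y - w) ^ m * w ^ N := by
    apply intervalIntegral.integral_mono_interval (by linarith) (by linarith) (by linarith)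
    · rw [Filter.EventuallyLE, ae_restrict_iff' measurableSet_Ioc]
      refine Filter.Eventually.of_forall (fun w hw => ?_)
      exact hnn w ⟨hw.1.le, hw.2⟩
    · exact hint _ _
  have hlow : ∫ w in ((x:ℝ) + 1/4)..((x:ℝ) + 3/4), ((1/16:ℝ) ^ m * (x:ℝ) ^ N) ≤
      ∫ w in ((x:ℝ) + 1/4)..((x:ℝ) + 3/4), (w - x) ^ m * (y - w) ^ m * w ^ N := by
    apply intervalIntegral.integral_mono_on (by linarith)
    · apply Continuous.intervalIntegrable; fun_prop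
    · exact hint _ _
    · intro w hw
      obtain ⟨h1, h2⟩ := hw
      have h3 : (1/16:ℝ) ≤ (w - x) * (y - w) := by nlinarith
      have h4 : (1/16:ℝ) ^ m ≤ (w - x) ^ m * (y - w) ^ m := by
        rw [← mul_pow]
        exact pow_le_pow_left₀ (by norm_num) h3 m
      have h5 : (x:ℝ) ^ N ≤ w ^ N := pow_le_pow_left₀ hx0 (by linarith) N
      exact mul_le_mul h4 h5 (pow_nonneg hx0 _) (le_trans (by positivity) h4)
  refine le_trans (le_of_eq ?_) (hlow.trans hsub)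
  rw [intervalIntegral.integral_const, smul_eq_mul, div_pow, one_pow]
  field_simp
  ring

/-- The main Diophantine lemma: two close integers `x < y` cannot have
`b * y ^ (N+m+1)` and `a * x ^ (N+m+1)` very close. -/
theorem core (x y a b m N K : ℕ) (hxy : x < y) (hb : 0 < b)
    (hδ : |(b:ℝ) * (y:ℝ) ^ (N + m + 1) - (a:ℝ) * (x:ℝ) ^ (N + m + 1)| < K)
    (h1 : 2 * K * (64 * y) ^ m ≤ x ^ N)
    (h2 : 2 * b * (N + 2 * m + 1) ^ (2 * m + 1) * (y - x) ^ (2 * m + 1) * y ^ N ≤ x ^ (N + m + 1)) :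
    False := by
  have hDpos : (0:ℝ) < D N m := by exact_mod_cast D_pos N m
  have hxyR : (x:ℝ) < y := by exact_mod_cast hxy
  set α := N + m + 1 with hα
  set δ : ℝ := (b:ℝ) * (y:ℝ) ^ α - (a:ℝ) * (x:ℝ) ^ α with hδdef
  set E : ℝ := (D N m : ℝ) * J x y m N with hE
  have hEeq : E = (Q x y m N : ℝ) * (y : ℝ) ^ α - (P x y m N : ℝ) * (x : ℝ) ^ α := D_mul_J x y m N
  set Z : ℤ := (a:ℤ) * Q x y m N - (b:ℤ) * P x y m N with hZ
  have hZeq : (Z:ℝ) * (x:ℝ) ^ α = (b:ℝ) * E - (Q x y m N : ℝ) * δ := by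
    rw [hZ, hEeq, hδdef]; push_cast; ring
  have hy0 : (0:ℝ) < y := lt_of_le_of_lt (Nat.cast_nonneg x) hxyR
  have hQ := abs_Q_le x y m N hxy.le
  have hb1 : (1:ℝ) ≤ b := by exact_mod_cast hb
  have h1R : 2 * (K:ℝ) * (64 * y) ^ m ≤ (x:ℝ) ^ N := by exact_mod_cast h1
  have hElow : (D N m : ℝ) * ((x:ℝ) ^ N / (2 * 16 ^ m)) ≤ E :=
    mul_le_mul_of_nonneg_left (le_J x y m N hxy) hDpos.le
  have hQδ : |(Q x y m N : ℝ) * δ| < E := by
    rw [abs_mul]
    calc |(Q x y m N : ℝ)| * |δ| ≤ (D N m : ℝ) * (4 * y) ^ m * |δ| := by gcongr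
      _ < (D N m : ℝ) * (4 * y) ^ m * K := by gcongr
      _ ≤ (D N m : ℝ) * ((x:ℝ) ^ N / (2 * 16 ^ m)) := by
          rw [mul_assoc]
          gcongr
          rw [le_div_iff₀ (by positivity)]
          calc (4 * (y:ℝ)) ^ m * K * (2 * 16 ^ m) = 2 * (K:ℝ) * (64 * y) ^ m := by
                have : (64 * (y:ℝ)) ^ m = (4 * y) ^ m * 16 ^ m := by rw [← mul_pow]; congr 1; ring
                rw [this]; ring
            _ ≤ _ := h1R
      _ ≤ E := hElow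
  have hEpos : 0 < E := lt_of_le_of_lt (abs_nonneg _) hQδ
  have hbE : E ≤ (b:ℝ) * E := by nlinarith
  have hpos : 0 < (Z:ℝ) * (x:ℝ) ^ α := by
    rw [hZeq]
    have := le_abs_self ((Q x y m N : ℝ) * δ)
    linarith
  have hup : (b:ℝ) * E ≤ (x:ℝ) ^ α / 2 := by
    have hJ := J_le x y m N hxy.le
    have hD : (D N m : ℝ) ≤ ((N:ℝ) + 2 * m + 1) ^ (2 * m + 1) := by exact_mod_cast D_le N m
    have h2R : 2 * (b:ℝ) * ((N:ℝ) + 2 * m + 1) ^ (2 * m + 1) * ((y:ℝ) - x) ^ (2 * m + 1) * (y:ℝ) ^ N ≤ (x:ℝ) ^ (N + m + 1) := by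
      have hc : (((y - x : ℕ)) : ℝ) = (y:ℝ) - x := by rw [Nat.cast_sub hxy.le]
      rw [← hc]
      exact_mod_cast h2
    have hyx : (0:ℝ) ≤ ((y:ℝ) - x) ^ (2 * m + 1) := pow_nonneg (by linarith) _
    calc (b:ℝ) * E ≤ (b:ℝ) * ((D N m : ℝ) * (((y:ℝ) - x) ^ (2 * m + 1) * (y:ℝ) ^ N)) := by
          rw [hE]; gcongr
      _ ≤ (b:ℝ) * (((N:ℝ) + 2 * m + 1) ^ (2 * m + 1) * (((y:ℝ) - x) ^ (2 * m + 1) * (y:ℝ) ^ N)) := by
          gcongr
      _ ≤ (x:ℝ) ^ α / 2 := by rw [hα]; linarith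
  have hlt : (Z:ℝ) * (x:ℝ) ^ α < (x:ℝ) ^ α := by
    rw [hZeq]
    have := neg_abs_le ((Q x y m N : ℝ) * δ)
    linarith
  have hxα : (0:ℝ) < (x:ℝ) ^ α := by linarith
  have hZ0 : (0:ℝ) < Z := by
    by_contra hcon
    push Not at hcon
    nlinarith
  have hZ1 : (Z:ℝ) < 1 := by
    by_contra hcon
    push Not at hcon
    nlinarith
  have hZ0' : 0 < Z := by exact_mod_cast hZ0
  have hZ1' : Z < 1 := by exact_mod_cast hZ1
  omega

end Pool.Agent.Helper57.Pade
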