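import Mathlib
import Pool.Agent.Helper57.Pade

set_option autoImplicit false

namespace Pool.Agent.Helper57.V1

open Finset ArithmeticFunction

/-- The least `k ≥ 1` with `p ∣ n + k`, when `p ∤ n`. -/
def kk (n p : ℕ) : ℕ := p - n % p

/-- exponent of `p` in `n + kk n p`. -/
def al (n p : ℕ) : ℕ := (n + kk n p).factorization p

/-- the part of `n + kk n p` prime to `p`. -/
def A (n p : ℕ) : ℕ := (n + kk n p) / p ^ (al n p)

/-- Each `n + k` has at most one prime power component exceeding `k`. -/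
def H (n : ℕ) : Prop := ∀ k, 1 ≤ k → ∀ p q : ℕ, p.Prime → q.Prime → p ∣ n + k → q ∣ n + k →
   k < p ^ ((n + k).factorization p) → k < q ^ ((n + k).factorization q) → p = q

lemma kk_pos (n p : ℕ) (hp : p.Prime) : 1 ≤ kk n p := by
  unfold kk
  have := Nat.mod_lt n hp.pos
  omega

lemma kk_lt (n p : ℕ) (hp : p.Prime) (hn : ¬ p ∣ n) : kk n p < p := by
  unfold kk
  have h1 : n % p ≠ 0 := fun h => hn (Nat.dvd_of_mod_eq_zero h)
  have := Nat.mod_lt n hp.pos
  omega

lemma dvd_kk (n p : ℕ) (hp : p.Prime) : p ∣ n + kk n p := by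
  refine ⟨n / p + 1, ?_⟩
  unfold kk
  have h1 := Nat.div_add_mod n p
  have h2 := Nat.mod_lt n hp.pos
  rw [Nat.mul_add, Nat.mul_one]
  omega

lemma al_pos (n p : ℕ) (hp : p.Prime) : 1 ≤ al n p := by
  unfold al
  have h := kk_pos n p hp
  exact (hp.dvd_iff_one_le_factorization (by omega)).1 (dvd_kk n p hp)

lemma kk_lt_pow (n p : ℕ) (hp : p.Prime) (hn : ¬ p ∣ n) : kk n p < p ^ (al n p) :=
  lt_of_lt_of_le (kk_lt n p hp hn) (Nat.le_self_pow (by have := al_pos n p hp; omega) p)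

lemma A_mul (n p : ℕ) : A n p * p ^ (al n p) = n + kk n p := by
  unfold A al
  exact Nat.div_mul_cancel (Nat.ordProj_dvd _ _)

lemma A_pos (n p : ℕ) (hp : p.Prime) : 0 < A n p := by
  have h := A_mul n p
  have h1 := kk_pos n p hp
  rcases Nat.eq_zero_or_pos (A n p) with h0 | h0
  · rw [h0] at h; omega
  · exact h0

lemma not_dvd_A (n p : ℕ) (hp : p.Prime) : ¬ p ∣ A n p := by
  unfold A al
  exact Nat.not_dvd_ordCompl hp (by have := kk_pos n p hp; omega)

lemma kk_inj (n : ℕ) (h : H n) (p q : ℕ) (hp : p.Prime) (hq : q.Prime) (hpn : ¬ p ∣ n) (hqn : ¬ q ∣ n)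
    (hk : kk n p = kk n q) : p = q := by
  refine h (kk n p) (kk_pos n p hp) p q hp hq (dvd_kk n p hp) (hk ▸ dvd_kk n q hq) (kk_lt_pow n p hp hpn) ?_
  have := kk_lt_pow n q hq hqn
  unfold al at this
  rw [hk]
  exact this

lemma comp_le (n : ℕ) (h : H n) (p : ℕ) (hp : p.Prime) (hpn : ¬ p ∣ n) (d : ℕ) (hd : d ∣ A n p)
    (hpp : IsPrimePow d) : d ≤ kk n p ∧ d ∣ n + kk n p := by
  have hA : A n p ∣ n + kk n p := ⟨p ^ al n p, (A_mul n p).symm⟩
  refine ⟨?_, hd.trans hA⟩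
  obtain ⟨q, j, hq, hj, rfl⟩ := hpp
  have hq' : q.Prime := hq.nat_prime
  have hne : n + kk n p ≠ 0 := by have := kk_pos n p hp; omega
  have hqA : q ∣ A n p := (dvd_pow_self q hj.ne').trans hd
  have hqp : q ≠ p := by
    rintro rfl
    exact not_dvd_A n q hp hqA
  have hle : q ^ j ≤ q ^ ((n + kk n p).factorization q) := by
    apply Nat.pow_le_pow_right hq'.pos
    exact (hq'.pow_dvd_iff_le_factorization hne).1 (hd.trans hA)
  by_contra hcon
  push Not at hcon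
  exact hqp (h (kk n p) (kk_pos n p hp) q p hq' hp (hqA.trans hA) (dvd_kk n p hp)
    (lt_of_lt_of_le hcon hle) (kk_lt_pow n p hp hpn))

lemma log_A_le (n : ℕ) (h : H n) (K p : ℕ) (hp : p.Prime) (hpn : ¬ p ∣ n) (hpK : p ≤ K) :
    Real.log (A n p) ≤ ∑ d ∈ (Icc 1 K).filter (fun d => d ∣ n + kk n p), vonMangoldt d := by
  rw [← vonMangoldt_sum]
  have h1 : ∑ d ∈ (A n p).divisors, vonMangoldt d = ∑ d ∈ (A n p).divisors.filter IsPrimePow, vonMangoldt d := by
    rw [sum_filter_of_ne]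
    intro d _ hd
    exact vonMangoldt_ne_zero_iff.1 hd
  rw [h1]
  apply sum_le_sum_of_subset_of_nonneg
  · intro d hd
    rw [mem_filter, Nat.mem_divisors] at hd
    obtain ⟨⟨hdA, _⟩, hpp⟩ := hd
    obtain ⟨h2, h3⟩ := comp_le n h p hp hpn d hdA hpp
    rw [mem_filter, mem_Icc]
    refine ⟨⟨hpp.one_lt.le, ?_⟩, h3⟩
    have := kk_lt n p hp hpn
    omega
  · intro d _ _
    exact vonMangoldt_nonneg

lemma card_dvd_le (n K d : ℕ) (hd : 1 ≤ d) :
    #{k ∈ Icc 1 K | d ∣ n + k} ≤ K / d + 1 := by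
  have h1 : #{x ∈ Ioc 0 (n + K) | d ∣ x} = (n + K) / d := Nat.Ioc_filter_dvd_card_eq_div _ _
  have h2 : #{x ∈ Ioc 0 n | d ∣ x} = n / d := Nat.Ioc_filter_dvd_card_eq_div _ _
  have h3 : #{k ∈ Icc 1 K | d ∣ n + k} + #{x ∈ Ioc 0 n | d ∣ x} ≤ #{x ∈ Ioc 0 (n + K) | d ∣ x} := by
    have hinj : #{k ∈ Icc 1 K | d ∣ n + k} = #(({k ∈ Icc 1 K | d ∣ n + k}).image (fun k => n + k)) := by
      rw [card_image_of_injective]
      intro a b hab
      simpa using hab
    rw [hinj, ← card_union_of_disjoint]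
    · apply card_le_card
      intro x hx
      rw [mem_union, mem_image] at hx
      rcases hx with ⟨k, hk, rfl⟩ | hx
      · rw [mem_filter, mem_Icc] at hk
        rw [mem_filter, mem_Ioc]
        refine ⟨⟨by omega, by omega⟩, hk.2⟩
      · rw [mem_filter, mem_Ioc] at hx ⊢
        refine ⟨⟨by omega, by omega⟩, hx.2⟩
    · rw [disjoint_left]
      intro x hx hx'
      rw [mem_image] at hx
      obtain ⟨k, hk, rfl⟩ := hx
      rw [mem_filter, mem_Icc] at hk
      rw [mem_filter, mem_Ioc] at hx'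
      omega
  rw [h1, h2] at h3
  have h4 : (n + K) / d ≤ n / d + K / d + 1 := by
    rw [Nat.add_div (by omega)]
    split_ifs <;> omega
  omega

/-- First moment bound. -/
lemma sum_log_A_le (n : ℕ) (h : H n) (K : ℕ) (hK : 1 ≤ K) (T : Finset ℕ)
    (hT : ∀ p ∈ T, p.Prime ∧ ¬ p ∣ n ∧ p ≤ K) :
    ∑ p ∈ T, Real.log (A n p) ≤ K * Real.log K * (2 + Real.log K) := by
  have hlogK : 0 ≤ Real.log K := Real.log_natCast_nonneg K
  calc ∑ p ∈ T, Real.log (A n p)
      ≤ ∑ p ∈ T, ∑ d ∈ (Icc 1 K).filter (fun d => d ∣ n + kk n p), vonMangoldt d := by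
        apply sum_le_sum
        intro p hp
        obtain ⟨h1, h2, h3⟩ := hT p hp
        exact log_A_le n h K p h1 h2 h3
    _ = ∑ d ∈ Icc 1 K, ∑ p ∈ T.filter (fun p => d ∣ n + kk n p), vonMangoldt d := by
        simp_rw [sum_filter]
        rw [sum_comm]
    _ = ∑ d ∈ Icc 1 K, (#(T.filter (fun p => d ∣ n + kk n p)) : ℝ) * vonMangoldt d := by
        refine sum_congr rfl (fun d _ => ?_)
        rw [sum_const, nsmul_eq_mul]
    _ ≤ ∑ d ∈ Icc 1 K, ((K:ℝ) * (d:ℝ)⁻¹ + 1) * Real.log K := by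
        apply sum_le_sum
        intro d hd
        rw [mem_Icc] at hd
        have hcard : #(T.filter (fun p => d ∣ n + kk n p)) ≤ K / d + 1 := by
          refine le_trans ?_ (card_dvd_le n K d hd.1)
          apply card_le_card_of_injOn (fun p => kk n p)
          · intro p hp
            simp only [coe_filter, Set.mem_ofPred_eq] at hp
            simp only [coe_filter, Set.mem_ofPred_eq, mem_Icc]
            obtain ⟨h1, h2, h3⟩ := hT p hp.1
            refine ⟨⟨kk_pos n p h1, ?_⟩, hp.2⟩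
            have := kk_lt n p h1 h2
            omega
          · intro p hp q hq hpq
            simp only [coe_filter, Set.mem_ofPred_eq] at hp hq
            obtain ⟨h1, h2, h3⟩ := hT p hp.1
            obtain ⟨h1', h2', h3'⟩ := hT q hq.1
            exact kk_inj n h p q h1 h1' h2 h2' hpq
        have hcard' : (#(T.filter (fun p => d ∣ n + kk n p)) : ℝ) ≤ (K:ℝ) * (d:ℝ)⁻¹ + 1 := by
          calc (#(T.filter (fun p => d ∣ n + kk n p)) : ℝ) ≤ ((K / d + 1 : ℕ) : ℝ) := by exact_mod_cast hcard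
            _ = ((K / d : ℕ) : ℝ) + 1 := by push_cast; ring
            _ ≤ (K:ℝ) / d + 1 := by
                gcongr
                exact Nat.cast_div_le
            _ = _ := by rw [div_eq_mul_inv]
        have hΛ : vonMangoldt d ≤ Real.log K := by
          refine vonMangoldt_le_log.trans ?_
          apply Real.log_le_log
          · exact_mod_cast hd.1
          · exact_mod_cast hd.2
        have := @vonMangoldt_nonneg d
        have hd0 : (0:ℝ) ≤ (d:ℝ)⁻¹ := by positivity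
        gcongr
    _ = (K * (∑ d ∈ Icc 1 K, (d:ℝ)⁻¹) + K) * Real.log K := by
        rw [← sum_mul, sum_add_distrib, ← mul_sum]
        simp
    _ ≤ (K * (1 + Real.log K) + K) * Real.log K := by
        have hh := harmonic_le_one_add_log K
        rw [harmonic_eq_sum_Icc] at hh
        push_cast at hh
        gcongr
    _ = _ := by ring

/-- Many primes in the range. -/
lemma many_primes (t n L : ℕ) (ht : 1 ≤ t) (hn : 0 < n) (hL : n < 2 ^ L) (K0 : ℕ) :
    (2:ℝ) ^ t / t - 2 - K0 - L ≤ #{p ∈ Icc 1 (2 ^ t) | p.Prime ∧ ¬ p ∣ n ∧ K0 < p} := by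
  have h1 := Chebyshev.pi_ge (2 ^ t)
  have h2 : (#{p ∈ Icc 1 (2 ^ t) | p.Prime} : ℝ) = Nat.primeCounting (2 ^ t) := by
    rw [← Nat.primesLE_card_eq_primeCounting, Nat.primesLE_eq_filter_Icc_one]
  have h3 : #n.primeFactors ≤ L := by
    have h4 : 2 ^ #n.primeFactors ≤ n := by
      calc 2 ^ #n.primeFactors = ∏ p ∈ n.primeFactors, 2 := by simp
        _ ≤ ∏ p ∈ n.primeFactors, p := prod_le_prod' (fun p hp => (Nat.prime_of_mem_primeFactors hp).two_le)
        _ ≤ n := Nat.le_of_dvd hn (Nat.prod_primeFactors_dvd n)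
    exact (Nat.pow_lt_pow_iff_right (by norm_num)).1 (lt_of_le_of_lt h4 hL) |>.le
  have h5 : #{p ∈ Icc 1 (2 ^ t) | p.Prime} ≤ #{p ∈ Icc 1 (2 ^ t) | p.Prime ∧ ¬ p ∣ n ∧ K0 < p} + #n.primeFactors + K0 := by
    have hsub : {p ∈ Icc 1 (2 ^ t) | p.Prime} ⊆ {p ∈ Icc 1 (2 ^ t) | p.Prime ∧ ¬ p ∣ n ∧ K0 < p} ∪ n.primeFactors ∪ Icc 1 K0 := by
      intro p hp
      simp only [mem_filter, mem_union, mem_Icc, Nat.mem_primeFactors] at hp ⊢
      by_cases ha : p ∣ n
      · left; right; exact ⟨hp.2, ha, hn.ne'⟩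
      · by_cases hb : K0 < p
        · left; left; exact ⟨hp.1, hp.2, ha, hb⟩
        · right; omega
    calc _ ≤ _ := card_le_card hsub
      _ ≤ _ := card_union_le _ _
      _ ≤ _ := by
        have := card_union_le {p ∈ Icc 1 (2 ^ t) | p.Prime ∧ ¬ p ∣ n ∧ K0 < p} n.primeFactors
        have h6 : #(Icc 1 K0) = K0 := by simp
        omega
  have h5R : (#{p ∈ Icc 1 (2 ^ t) | p.Prime} : ℝ) ≤ #{p ∈ Icc 1 (2 ^ t) | p.Prime ∧ ¬ p ∣ n ∧ K0 < p} + L + K0 := by
    have : #{p ∈ Icc 1 (2 ^ t) | p.Prime} ≤ #{p ∈ Icc 1 (2 ^ t) | p.Prime ∧ ¬ p ∣ n ∧ K0 < p} + L + K0 := by omega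
    exact_mod_cast this
  have h7 : (2:ℝ) ^ t / t - 2 ≤ (((2 ^ t : ℕ) : ℝ) * Real.log 2 - Real.log (((2 ^ t : ℕ) : ℝ) + 1)) / Real.log ((2 ^ t : ℕ) : ℝ) := by
    push_cast
    rw [Real.log_pow]
    have hl2 : 0 < Real.log 2 := Real.log_pos (by norm_num)
    have ht' : (1:ℝ) ≤ t := by exact_mod_cast ht
    rw [le_div_iff₀ (by positivity)]
    have h8 : Real.log ((2:ℝ) ^ t + 1) ≤ (t + 1) * Real.log 2 := by
      have : (2:ℝ) ^ t + 1 ≤ 2 ^ (t + 1) := by
        have : (1:ℝ) ≤ 2 ^ t := one_le_pow₀ (by norm_num)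
        rw [pow_succ]; linarith
      calc Real.log ((2:ℝ) ^ t + 1) ≤ Real.log ((2:ℝ) ^ (t + 1)) := Real.log_le_log (by positivity) this
        _ = _ := by rw [Real.log_pow]; push_cast; ring
    have h9 : ((2:ℝ) ^ t / t - 2) * (t * Real.log 2) = 2 ^ t * Real.log 2 - 2 * t * Real.log 2 := by
      field_simp
    rw [h9]
    nlinarith
  linarith [h7.trans h1]

end Pool.Agent.Helper57.V1
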