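import Mathlib
import Pool.Agent.Helper57.Pade
import Pool.Agent.Helper57.V1

set_option autoImplicit false

namespace Pool.Agent.Helper57.V1

open Finset

lemma pow_big (s : ℕ) (hs : 40 ≤ s) : 4000000 * s ^ 3 ≤ 2 ^ s := by
  induction s, hs using Nat.le_induction with
  | base => norm_num
  | succ s hs ih =>
    have h1 : (s + 1) ^ 3 ≤ 2 * s ^ 3 := by
      have e1 : s ^ 3 = s * s ^ 2 := by ring
      have h2 : 40 * s ^ 2 ≤ s ^ 3 := by rw [e1]; exact Nat.mul_le_mul_right _ hs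
      have h3 : 40 * s ≤ s ^ 2 := by rw [pow_two]; exact Nat.mul_le_mul_right _ hs
      have e2 : (s + 1) ^ 3 = s ^ 3 + 3 * s ^ 2 + 3 * s + 1 := by ring
      rw [e2]
      omega
    calc 4000000 * (s + 1) ^ 3 ≤ 4000000 * (2 * s ^ 3) := Nat.mul_le_mul_left _ h1
      _ = 2 * (4000000 * s ^ 3) := by ring
      _ ≤ 2 * 2 ^ s := Nat.mul_le_mul_left _ ih
      _ = 2 ^ (s + 1) := by ring

/-- The Diophantine step with our parameters. -/
lemma dioph_step (s n L x y α a b : ℕ) (hs : 40 ≤ s) (hLs : 2 ^ s ≤ L) (hn : 2 ^ L ≤ n)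
    (hα : α ≤ 2 ^ (s + 1)) (hxy : x < y) (hx : 2 ^ (8 * s) ≤ x) (hy : y ≤ 2 ^ (16 * s))
    (hd : y - x ≤ 2 ^ (2 * s)) (hb0 : 0 < b)
    (ha : a ≤ 2 ^ (73728 * s ^ 3)) (hb : b ≤ 2 ^ (73728 * s ^ 3))
    (hnx : n ≤ a * x ^ α)
    (hδ : |(b:ℝ) * (y:ℝ) ^ α - (a:ℝ) * (x:ℝ) ^ α| < ((2 ^ (16 * s) : ℕ) : ℝ)) : False := by
  have hbig := pow_big s hs
  set m := 80000 * s ^ 2 with hm
  have hs3 : s * s ^ 2 = s ^ 3 := by ring
  have hs2 : 40 * s ^ 2 ≤ s ^ 3 := by rw [← hs3]; exact Nat.mul_le_mul_right _ hs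
  have hs1 : 40 * s ≤ s ^ 2 := by rw [pow_two]; exact Nat.mul_le_mul_right _ hs
  have hI4 : 1 + 16 * s + (6 + 16 * s) * m + 16 * s * (m + 1) + 73728 * s ^ 3 ≤ L := by
    refine le_trans ?_ (hbig.trans hLs)
    have e1 : (6 + 16 * s) * m = 480000 * s ^ 2 + 1280000 * s ^ 3 := by rw [hm, ← hs3]; ring
    have e2 : 16 * s * (m + 1) = 1280000 * s ^ 3 + 16 * s := by rw [hm, ← hs3]; ring
    rw [e1, e2]
    omega
  have hI5 : 3 + 73728 * s ^ 3 + (3 * s + 2) * (2 * m + 1) ≤ 8 * s * (m + 1) := by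
    have e1 : (3 * s + 2) * (2 * m + 1) = 480000 * s ^ 3 + 320000 * s ^ 2 + 3 * s + 2 := by
      rw [hm, ← hs3]; ring
    have e2 : 8 * s * (m + 1) = 640000 * s ^ 3 + 8 * s := by rw [hm, ← hs3]; ring
    rw [e1, e2]
    omega
  have hx1 : 1 ≤ x := le_trans Nat.one_le_two_pow hx
  have hxK : x ≤ 2 ^ (16 * s) := by omega
  -- α > m
  have hαm : m + 1 ≤ α := by
    by_contra hcon
    have hαle : α ≤ m := by omega
    have h1 : n ≤ 2 ^ (73728 * s ^ 3) * 2 ^ (16 * s * m) := by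
      calc n ≤ a * x ^ α := hnx
        _ ≤ 2 ^ (73728 * s ^ 3) * (2 ^ (16 * s)) ^ α := by gcongr
        _ ≤ 2 ^ (73728 * s ^ 3) * (2 ^ (16 * s)) ^ m := by
            gcongr
            exact Nat.one_le_two_pow
        _ = _ := by rw [← pow_mul]
    have h2 : 2 ^ L ≤ 2 ^ (73728 * s ^ 3 + 16 * s * m) := by
      rw [pow_add]; exact hn.trans h1
    have h3 : L ≤ 73728 * s ^ 3 + 16 * s * m := (Nat.pow_le_pow_iff_right (by norm_num)).1 h2
    have h4 : 16 * s * (m + 1) = 16 * s * m + 16 * s := by ring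
    have h5 : 0 ≤ (6 + 16 * s) * m := Nat.zero_le _
    omega
  obtain ⟨N, hN⟩ : ∃ N, α = N + m + 1 := ⟨α - m - 1, by omega⟩
  subst hN
  have hh1 : 2 * 2 ^ (16 * s) * (64 * y) ^ m ≤ x ^ N := by
    have h1 : 2 ^ L ≤ x ^ N * (2 ^ (16 * s * (m + 1)) * 2 ^ (73728 * s ^ 3)) := by
      calc 2 ^ L ≤ n := hn
        _ ≤ a * x ^ (N + m + 1) := hnx
        _ = x ^ N * (x ^ (m + 1) * a) := by rw [show N + m + 1 = N + (m + 1) by ring, pow_add]; ring
        _ ≤ x ^ N * ((2 ^ (16 * s)) ^ (m + 1) * 2 ^ (73728 * s ^ 3)) := by gcongr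
        _ = _ := by rw [← pow_mul]
    have h2 : 2 * 2 ^ (16 * s) * (64 * y) ^ m ≤ 2 ^ (1 + 16 * s + (6 + 16 * s) * m) := by
      calc 2 * 2 ^ (16 * s) * (64 * y) ^ m ≤ 2 * 2 ^ (16 * s) * (2 ^ (6 + 16 * s)) ^ m := by
            gcongr
            rw [pow_add]
            norm_num
            exact hy
        _ = 2 ^ (1 + 16 * s + (6 + 16 * s) * m) := by
            rw [← pow_mul, pow_add, pow_add, pow_one]
    refine h2.trans ?_
    have h3 : 2 ^ (1 + 16 * s + (6 + 16 * s) * m) * (2 ^ (16 * s * (m + 1)) * 2 ^ (73728 * s ^ 3)) ≤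
        x ^ N * (2 ^ (16 * s * (m + 1)) * 2 ^ (73728 * s ^ 3)) := by
      refine le_trans ?_ h1
      rw [← pow_add, ← pow_add]
      apply Nat.pow_le_pow_right (by norm_num)
      omega
    exact Nat.le_of_mul_le_mul_right h3 (by positivity)
  have hyN : y ^ N ≤ 4 * x ^ N := by
    have hx0 : (0:ℝ) < x := by exact_mod_cast hx1
    have hyxle : (y:ℝ) ≤ x * Real.exp (((y:ℝ) - x) / x) := by
      have hu := Real.add_one_le_exp (((y:ℝ) - x) / x)
      have hyx : (x:ℝ) * (((y:ℝ) - x) / x + 1) = y := by field_simp; ring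
      calc (y:ℝ) = (x:ℝ) * (((y:ℝ) - x) / x + 1) := hyx.symm
        _ ≤ _ := mul_le_mul_of_nonneg_left hu hx0.le
    have h4 : (N:ℝ) * (((y:ℝ) - x) / x) ≤ 1 := by
      rw [mul_div_assoc', div_le_one hx0]
      have h5 : N * (y - x) ≤ x := by
        calc N * (y - x) ≤ 2 ^ (s + 1) * 2 ^ (2 * s) := by
              gcongr
              omega
          _ = 2 ^ (3 * s + 1) := by rw [← pow_add]; congr 1; ring
          _ ≤ 2 ^ (8 * s) := by apply Nat.pow_le_pow_right (by norm_num); omega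
          _ ≤ x := hx
      have hc : (((y - x : ℕ)) : ℝ) = (y:ℝ) - x := by rw [Nat.cast_sub hxy.le]
      rw [← hc]
      exact_mod_cast h5
    have h6 : (y:ℝ) ^ N ≤ 4 * (x:ℝ) ^ N := by
      calc (y:ℝ) ^ N ≤ (x * Real.exp (((y:ℝ) - x) / x)) ^ N := by gcongr
        _ = (x:ℝ) ^ N * Real.exp (N * (((y:ℝ) - x) / x)) := by rw [mul_pow, ← Real.exp_nat_mul]
        _ ≤ (x:ℝ) ^ N * Real.exp 1 := by gcongr
        _ ≤ (x:ℝ) ^ N * 4 := by
            gcongr
            have := Real.exp_one_lt_d9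
            linarith
        _ = _ := by ring
    exact_mod_cast h6
  have hh2 : 2 * b * (N + 2 * m + 1) ^ (2 * m + 1) * (y - x) ^ (2 * m + 1) * y ^ N ≤ x ^ (N + m + 1) := by
    have h1 : N + 2 * m + 1 ≤ 2 ^ (s + 2) := by
      have h2 : m ≤ 2 ^ s := by
        refine le_trans ?_ hbig
        rw [hm]
        omega
      have h3 : 2 ^ (s + 2) = 2 ^ (s + 1) + 2 * 2 ^ s := by ring
      omega
    calc 2 * b * (N + 2 * m + 1) ^ (2 * m + 1) * (y - x) ^ (2 * m + 1) * y ^ N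
        ≤ 2 * 2 ^ (73728 * s ^ 3) * (2 ^ (s + 2)) ^ (2 * m + 1) * (2 ^ (2 * s)) ^ (2 * m + 1) * (4 * x ^ N) := by
          gcongr
      _ = 2 ^ (3 + 73728 * s ^ 3 + (3 * s + 2) * (2 * m + 1)) * x ^ N := by
          rw [← pow_mul, ← pow_mul]
          have : 2 ^ (3 + 73728 * s ^ 3 + (3 * s + 2) * (2 * m + 1)) =
            2 ^ 3 * 2 ^ (73728 * s ^ 3) * 2 ^ ((s + 2) * (2 * m + 1)) * 2 ^ (2 * s * (2 * m + 1)) := by
            rw [← pow_add, ← pow_add, ← pow_add]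
            congr 1
            ring
          rw [this]
          ring
      _ ≤ 2 ^ (8 * s * (m + 1)) * x ^ N := by
          gcongr
          norm_num
      _ = (2 ^ (8 * s)) ^ (m + 1) * x ^ N := by rw [← pow_mul]
      _ ≤ x ^ (m + 1) * x ^ N := by gcongr
      _ = x ^ (N + m + 1) := by rw [← pow_add]; congr 1; ring
  exact Pade.core x y a b m N (2 ^ (16 * s)) hxy hb0 hδ hh1 hh2

/-- Main theorem: `H n` fails for all large `n`. -/
theorem not_H (s n L : ℕ) (hs : 40 ≤ s) (hLs : 2 ^ s ≤ L) (hLs' : L < 2 ^ (s + 1))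
    (hn : 2 ^ L ≤ n) (hn' : n < 2 ^ (L + 1)) : ¬ H n := by
  intro h
  have hbig := pow_big s hs
  have hs3 : s * s ^ 2 = s ^ 3 := by ring
  have hs2 : 40 * s ^ 2 ≤ s ^ 3 := by rw [← hs3]; exact Nat.mul_le_mul_right _ hs
  have hs1 : 40 * s ≤ s ^ 2 := by rw [pow_two]; exact Nat.mul_le_mul_right _ hs
  set t := 16 * s with ht
  set T : Finset ℕ := {p ∈ Icc 1 (2 ^ t) | p.Prime ∧ ¬ p ∣ n ∧ 2 ^ (8 * s) < p} with hT
  have hn0 : 0 < n := lt_of_lt_of_le (by positivity) hn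
  have hTcard := many_primes t n (L + 1) (by omega) hn0 hn' (2 ^ (8 * s))
  rw [← hT] at hTcard
  have hTmem : ∀ p ∈ T, p.Prime ∧ ¬ p ∣ n ∧ p ≤ 2 ^ t := by
    intro p hp
    rw [hT, mem_filter, mem_Icc] at hp
    exact ⟨hp.2.1, hp.2.2.1, hp.1.2⟩
  have hTmem2 : ∀ p ∈ T, 2 ^ (8 * s) < p := by
    intro p hp
    rw [hT, mem_filter, mem_Icc] at hp
    exact hp.2.2.2
  have hmom := sum_log_A_le n h (2 ^ t) Nat.one_le_two_pow T hTmem
  -- real versions
  have hsR : (40:ℝ) ≤ s := by exact_mod_cast hs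
  have htR : (t:ℝ) = 16 * s := by rw [ht]; push_cast; ring
  have ht0 : (0:ℝ) < t := by rw [htR]; linarith
  have hX : (512:ℝ) * s < 2 ^ s := by
    have : 512 * s < 2 ^ s := by omega
    exact_mod_cast this
  set X : ℝ := (2:ℝ) ^ s with hXdef
  have hX1 : (1:ℝ) ≤ X := one_le_pow₀ (by norm_num)
  have h2t : (2:ℝ) ^ t = X ^ 16 := by rw [hXdef, ← pow_mul, ht]; congr 1; ring
  have h28 : (2:ℝ) ^ (8 * s) = X ^ 8 := by rw [hXdef, ← pow_mul]; congr 1; ring
  have hmom2 : ∑ p ∈ T, Real.log (A n p) ≤ 3 * 2 ^ t * t ^ 2 := by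
    refine hmom.trans ?_
    have hl : Real.log ((2 ^ t : ℕ) : ℝ) ≤ t := by
      push_cast
      rw [Real.log_pow]
      have := Real.log_two_lt_d9
      nlinarith
    have hl0 : 0 ≤ Real.log ((2 ^ t : ℕ) : ℝ) := Real.log_natCast_nonneg _
    have ht1 : (1:ℝ) ≤ t := by rw [htR]; linarith
    calc ((2 ^ t : ℕ) : ℝ) * Real.log ((2 ^ t : ℕ) : ℝ) * (2 + Real.log ((2 ^ t : ℕ) : ℝ))
        ≤ ((2 ^ t : ℕ) : ℝ) * t * (2 + t) := by gcongr
      _ ≤ ((2 ^ t : ℕ) : ℝ) * t * (3 * t) := by gcongr; linarith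
      _ = _ := by push_cast; ring
  set G := T.filter (fun p => Real.log (A n p) ≤ 12 * t ^ 3) with hG
  have hbad : (#(T.filter (fun p => ¬ Real.log (A n p) ≤ 12 * t ^ 3)) : ℝ) * (12 * t ^ 3) ≤ 3 * 2 ^ t * t ^ 2 := by
    refine le_trans ?_ hmom2
    rw [← nsmul_eq_mul, ← sum_const]
    calc ∑ p ∈ T.filter (fun p => ¬ Real.log (A n p) ≤ 12 * t ^ 3), (12 * (t:ℝ) ^ 3)
        ≤ ∑ p ∈ T.filter (fun p => ¬ Real.log (A n p) ≤ 12 * t ^ 3), Real.log (A n p) := by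
          apply sum_le_sum
          intro p hp
          rw [mem_filter] at hp
          exact (not_le.1 hp.2).le
      _ ≤ _ := by
          apply sum_le_sum_of_subset_of_nonneg (filter_subset _ _)
          intro p _ _
          exact Real.log_natCast_nonneg _
  have hbad2 : (#(T.filter (fun p => ¬ Real.log (A n p) ≤ 12 * t ^ 3)) : ℝ) ≤ 2 ^ t / (4 * t) := by
    rw [le_div_iff₀ (by positivity)]
    have h3 : (0:ℝ) < 3 * t ^ 2 := by positivity
    have h4 : (#(T.filter (fun p => ¬ Real.log (A n p) ≤ 12 * t ^ 3)) : ℝ) * (4 * t) * (3 * t ^ 2) ≤ 2 ^ t * (3 * t ^ 2) := by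
      calc _ = (#(T.filter (fun p => ¬ Real.log (A n p) ≤ 12 * t ^ 3)) : ℝ) * (12 * t ^ 3) := by ring
        _ ≤ _ := hbad
        _ = _ := by ring
    exact le_of_mul_le_mul_right h4 h3
  have hsplit : (#G : ℝ) + #(T.filter (fun p => ¬ Real.log (A n p) ≤ 12 * t ^ 3)) = #T := by
    rw [hG, ← Nat.cast_add, card_filter_add_card_filter_not (s := T) (fun p => Real.log (A n p) ≤ 12 * (t:ℝ) ^ 3)]
  have hLR : (L:ℝ) + 1 ≤ 2 * X := by
    have : L + 1 ≤ 2 ^ (s + 1) := hLs'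
    have h5 : ((L + 1 : ℕ) : ℝ) ≤ ((2 ^ (s + 1) : ℕ) : ℝ) := by exact_mod_cast this
    push_cast at h5
    rw [hXdef]
    rw [pow_succ] at h5
    linarith
  have hTlow : (2:ℝ) ^ t / (2 * t) ≤ #T := by
    refine le_trans ?_ hTcard
    push_cast
    rw [h28]
    have h6 : (2:ℝ) ^ t / t = 2 * ((2:ℝ) ^ t / (2 * t)) := by field_simp
    rw [h6]
    have h7 : 2 + X ^ 8 + (L + 1) ≤ (2:ℝ) ^ t / (2 * t) := by
      rw [le_div_iff₀ (by positivity), h2t, htR]
      have h8 : 2 + X ^ 8 + (L + 1) ≤ 5 * X ^ 8 := by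
        have : X ≤ X ^ 8 := le_self_pow₀ hX1 (by norm_num)
        linarith
      calc (2 + X ^ 8 + ((L:ℝ) + 1)) * (2 * (16 * s)) ≤ (5 * X ^ 8) * (2 * (16 * s)) := by gcongr
        _ = 160 * s * X ^ 8 := by ring
        _ ≤ X * X ^ 8 := by gcongr; linarith
        _ = X ^ 9 := by ring
        _ ≤ X ^ 16 := pow_le_pow_right₀ hX1 (by norm_num)
    linarith
  have hGlow : (2:ℝ) ^ t / (4 * t) ≤ #G := by
    have h9 : (2:ℝ) ^ t / (2 * t) = 2 * ((2:ℝ) ^ t / (4 * t)) := by field_simp; ring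
    linarith
  -- pigeonhole
  have hal : ∀ p ∈ T, al n p < 2 ^ (s + 1) + 1 := by
    intro p hp
    obtain ⟨h1, h2, h3⟩ := hTmem p hp
    have h4 : 2 ^ al n p < 2 ^ (L + 2) := by
      calc 2 ^ al n p ≤ p ^ al n p := Nat.pow_le_pow_left h1.two_le _
        _ ≤ n + kk n p := Nat.le_of_dvd (by omega) ⟨A n p, by rw [mul_comm]; exact (A_mul n p).symm⟩
        _ < 2 ^ (L + 1) + 2 ^ (L + 1) := by
            have h5 := kk_lt n p h1 h2
            have h6 : 2 ^ t ≤ 2 ^ (L + 1) := by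
              apply Nat.pow_le_pow_right (by norm_num)
              omega
            omega
        _ = 2 ^ (L + 2) := by ring
    have h5 : al n p < L + 2 := (Nat.pow_lt_pow_iff_right (by norm_num)).1 h4
    omega
  obtain ⟨p, hp, q, hq, hpq, hfpq⟩ : ∃ p ∈ G, ∃ q ∈ G, p ≠ q ∧
      (p / 2 ^ (2 * s), al n p) = (q / 2 ^ (2 * s), al n q) := by
    apply exists_ne_map_eq_of_card_lt_of_maps_to
      (t := range (2 ^ (14 * s) + 1) ×ˢ range (2 ^ (s + 1) + 1))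
    · rw [card_product, card_range, card_range]
      have hreal : (((2 ^ (14 * s) + 1) * (2 ^ (s + 1) + 1) : ℕ) : ℝ) < #G := by
        refine lt_of_lt_of_le ?_ hGlow
        push_cast
        rw [lt_div_iff₀ (by positivity), h2t, htR]
        have h14 : (2:ℝ) ^ (14 * s) = X ^ 14 := by rw [hXdef, ← pow_mul]; congr 1; ring
        have h15 : (2:ℝ) ^ (s + 1) = 2 * X := by rw [hXdef, pow_succ]; ring
        rw [h14, h15]
        have h16 : (1:ℝ) ≤ X ^ 14 := one_le_pow₀ hX1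
        calc (X ^ 14 + 1) * (2 * X + 1) * (4 * (16 * s)) ≤ (2 * X ^ 14) * (4 * X) * (4 * (16 * s)) := by
              gcongr <;> linarith
          _ = (512 * s) * X ^ 15 := by ring
          _ < X * X ^ 15 := by gcongr
          _ = X ^ 16 := by ring
      exact_mod_cast hreal
    · intro p hp
      rw [hG] at hp
      have hp' : p ∈ T := (mem_filter.1 hp).1
      simp only [coe_product, Set.mem_prod, mem_coe, mem_range]
      refine ⟨?_, hal p hp'⟩
      have h1 := (hTmem p hp').2.2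
      have h2 : p / 2 ^ (2 * s) ≤ 2 ^ t / 2 ^ (2 * s) := Nat.div_le_div_right h1
      have h3 : 2 ^ t / 2 ^ (2 * s) = 2 ^ (14 * s) := by
        rw [Nat.pow_div (by omega) (by norm_num)]
        congr 1
        omega
      omega
  have key : ∀ x ∈ G, ∀ y ∈ G, x < y → (x / 2 ^ (2 * s), al n x) = (y / 2 ^ (2 * s), al n y) → False := by
    intro x hx y hy hxy hf
    rw [Prod.mk.injEq] at hf
    obtain ⟨hf1, hf2⟩ := hf
    rw [hG, mem_filter] at hx hy
    obtain ⟨hxT, hxl⟩ := hx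
    obtain ⟨hyT, hyl⟩ := hy
    obtain ⟨hxp, hxn, hxK⟩ := hTmem x hxT
    obtain ⟨hyp, hyn, hyK⟩ := hTmem y hyT
    have hAle : ∀ z, z.Prime → Real.log (A n z) ≤ 12 * t ^ 3 → A n z ≤ 2 ^ (73728 * s ^ 3) := by
      intro z hz hlz
      have hz0 : (0:ℝ) < A n z := by exact_mod_cast A_pos n z hz
      have h1 : (A n z : ℝ) ≤ (2:ℝ) ^ (73728 * s ^ 3) := by
        rw [← Real.log_le_log_iff hz0 (by positivity), Real.log_pow]
        refine hlz.trans ?_
        rw [htR]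
        push_cast
        have := Real.log_two_gt_d9
        have hs0 : (0:ℝ) ≤ (s:ℝ) ^ 3 := by positivity
        nlinarith
      exact_mod_cast h1
    have hyx : y - x ≤ 2 ^ (2 * s) := by
      have h1 := Nat.div_add_mod x (2 ^ (2 * s))
      have h2 := Nat.div_add_mod y (2 ^ (2 * s))
      have h3 := Nat.mod_lt x (show 0 < 2 ^ (2 * s) by positivity)
      have h4 := Nat.mod_lt y (show 0 < 2 ^ (2 * s) by positivity)
      rw [hf1] at h1
      omega
    have hα1 := hal x hxT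
    refine dioph_step s n L x y (al n x) (A n x) (A n y) hs hLs hn (by omega) hxy (hTmem2 x hxT).le
      hyK hyx (A_pos n y hyp) (hAle x hxp hxl) (hAle y hyp hyl) ?_ ?_
    · rw [A_mul]; omega
    · have e1 : (A n y : ℝ) * (y:ℝ) ^ al n x = (n:ℝ) + kk n y := by
        rw [hf2]; exact_mod_cast A_mul n y
      have e2 : (A n x : ℝ) * (x:ℝ) ^ al n x = (n:ℝ) + kk n x := by
        exact_mod_cast A_mul n x
      rw [e1, e2]
      have h1 := kk_lt n x hxp hxn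
      have h2 := kk_lt n y hyp hyn
      have h3 : (kk n x : ℝ) < ((2 ^ t : ℕ) : ℝ) := by exact_mod_cast (by omega : kk n x < 2 ^ t)
      have h4 : (kk n y : ℝ) < ((2 ^ t : ℕ) : ℝ) := by exact_mod_cast (by omega : kk n y < 2 ^ t)
      have h5 : (0:ℝ) ≤ kk n x := Nat.cast_nonneg _
      have h6 : (0:ℝ) ≤ kk n y := Nat.cast_nonneg _
      rw [abs_lt]
      constructor <;> linarith
  rcases lt_or_gt_of_ne hpq with hlt | hlt
  · exact key p hp q hq hlt hfpq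
  · exact key q hq p hp hlt hfpq.symm

theorem exists_bound_aux (s0 : ℕ) (h0 : 40 ≤ s0) : ∃ N0 : ℕ, ∀ n, N0 ≤ n → ¬ H n := by
  refine ⟨2 ^ (2 ^ s0), fun n hn => ?_⟩
  have hn0 : n ≠ 0 := by
    have : 0 < 2 ^ (2 ^ s0) := Nat.two_pow_pos _
    omega
  have hL : 2 ^ s0 ≤ Nat.log 2 n := (Nat.le_log_iff_pow_le (by norm_num) hn0).2 hn
  have hL0 : Nat.log 2 n ≠ 0 := by
    have : 0 < 2 ^ s0 := Nat.two_pow_pos _
    omega
  have hs : s0 ≤ Nat.log 2 (Nat.log 2 n) := (Nat.le_log_iff_pow_le (by norm_num) hL0).2 hL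
  exact not_H (Nat.log 2 (Nat.log 2 n)) n (Nat.log 2 n) (h0.trans hs) (Nat.pow_log_le_self 2 hL0)
    (Nat.lt_pow_succ_log_self (by norm_num) _) (Nat.pow_log_le_self 2 hn0)
    (Nat.lt_pow_succ_log_self (by norm_num) _)

theorem exists_bound : ∃ N0 : ℕ, ∀ n, N0 ≤ n → ¬ H n := exists_bound_aux 40 le_rfl

end Pool.Agent.Helper57.V1
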