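import Mathlib
import Pool.Agent.Helper57.Final

/-!
# Two primes `> k` dividing `n + k`

`Hp l K n`: for `l ≤ k ≤ K`, `k ≥ 1`, at most one prime `> k` divides `n + k`.  It fails for all large `n` when
`K = 2 ^ (16 s)`, `2 ^ s ≤ log n`.  The new point compared with `V1` is that powers of small primes may be large in
`n + k`; but for every prime `q ≤ K` this happens for one `k ≤ K` only (`M q`), and there are as many primes `q`
as numbers `k` with a prime `> k` dividing `n + k`.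
-/

set_option autoImplicit false

namespace Pool.Agent.Helper57.V1

open Finset ArithmeticFunction

/-- For `l ≤ k ≤ K`, `k ≥ 1`, at most one prime `> k` divides `n + k`. -/
def Hp (l K n : ℕ) : Prop := ∀ k, 1 ≤ k → l ≤ k → k ≤ K → ∀ p q : ℕ, p.Prime → q.Prime → p ∣ n + k →
  q ∣ n + k → k < p → k < q → p = q

lemma exists_M (n K : ℕ) (hK : 1 ≤ K) : ∃ M : ℕ → ℕ, ∀ q, (1 ≤ M q ∧ M q ≤ K) ∧
    ∀ k, 1 ≤ k → k ≤ K → (n + k).factorization q ≤ (n + M q).factorization q := by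
  have h : ∀ q : ℕ, ∃ m ∈ Icc 1 K, ∀ k ∈ Icc 1 K, (n + k).factorization q ≤ (n + m).factorization q :=
    fun q => exists_max_image (Icc 1 K) (fun k => (n + k).factorization q) ⟨1, by simp [hK]⟩
  choose M hM using h
  refine ⟨M, fun q => ⟨?_, ?_⟩⟩
  · have := (hM q).1
    rwa [mem_Icc] at this
  · intro k h1 h2
    exact (hM q).2 k (mem_Icc.2 ⟨h1, h2⟩)

lemma pow_le_K (n K q k m : ℕ) (hk : 1 ≤ k ∧ k ≤ K) (hm : 1 ≤ m ∧ m ≤ K) (hne : k ≠ m)
    (hle : (n + k).factorization q ≤ (n + m).factorization q) :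
    q ^ ((n + k).factorization q) ≤ K := by
  have h1 : q ^ ((n + k).factorization q) ∣ n + k := Nat.ordProj_dvd _ _
  have h2 : q ^ ((n + k).factorization q) ∣ n + m :=
    (Nat.pow_dvd_pow _ hle).trans (Nat.ordProj_dvd _ _)
  rcases lt_or_gt_of_ne hne with h | h
  · have h3 := Nat.dvd_sub h2 h1
    have h4 : n + m - (n + k) = m - k := by omega
    rw [h4] at h3
    have := Nat.le_of_dvd (by omega) h3
    omega
  · have h3 := Nat.dvd_sub h1 h2
    have h4 : n + k - (n + m) = k - m := by omega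
    rw [h4] at h3
    have := Nat.le_of_dvd (by omega) h3
    omega

/-- the part of `log (n + k)` which comes from the primes `q` with `M q ≠ k` -/
noncomputable def rr (n : ℕ) (M : ℕ → ℕ) (k : ℕ) : ℝ :=
  ∑ q ∈ (n + k).primeFactors.filter (fun q => M q ≠ k), ((n + k).factorization q : ℝ) * Real.log q

lemma log_split (n : ℕ) (M : ℕ → ℕ) (k : ℕ) :
    Real.log ((n + k : ℕ) : ℝ) = rr n M k +
      ∑ q ∈ (n + k).primeFactors.filter (fun q => M q = k), ((n + k).factorization q : ℝ) * Real.log q := by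
  rw [Real.log_nat_eq_sum_factorization, Finsupp.sum, Nat.support_factorization, rr,
    ← sum_filter_add_sum_filter_not (n + k).primeFactors (fun q => M q ≠ k)]
  congr 1
  apply sum_congr
  · ext q
    simp
  · intro q _
    rfl

lemma rr_le (n K : ℕ) (M : ℕ → ℕ) (hM : ∀ q, (1 ≤ M q ∧ M q ≤ K) ∧
    ∀ k, 1 ≤ k → k ≤ K → (n + k).factorization q ≤ (n + M q).factorization q) (k : ℕ) (hk : 1 ≤ k) (hkK : k ≤ K) :
    rr n M k ≤ ∑ d ∈ (Icc 1 K).filter (fun d => d ∣ n + k), vonMangoldt d := by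
  have hne : n + k ≠ 0 := by omega
  set f : ℕ →₀ ℕ := (n + k).factorization.filter (fun q => M q ≠ k) with hf
  have hfs : f.support = (n + k).primeFactors.filter (fun q => M q ≠ k) := by
    rw [hf, Finsupp.support_filter, Nat.support_factorization]
  have hfp : ∀ p ∈ f.support, p.Prime := by
    intro p hp
    rw [hfs, mem_filter] at hp
    exact Nat.prime_of_mem_primeFactors hp.1
  set D : ℕ := f.prod (fun q e => q ^ e) with hD
  have hDf : D.factorization = f := Nat.prod_pow_factorization_eq_self hfp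
  have hD0 : D ≠ 0 := by
    rw [hD, Finsupp.prod]
    exact prod_ne_zero_iff.2 (fun p hp => pow_ne_zero _ (hfp p hp).ne_zero)
  have h1 : rr n M k = Real.log D := by
    rw [Real.log_nat_eq_sum_factorization, hDf, Finsupp.sum, hfs, rr]
    apply sum_congr rfl
    intro q hq
    rw [mem_filter] at hq
    rw [hf, Finsupp.filter_apply_pos (fun q => M q ≠ k) _ hq.2]
  rw [h1, ← vonMangoldt_sum]
  have h2 : ∑ d ∈ D.divisors, vonMangoldt d = ∑ d ∈ D.divisors.filter IsPrimePow, vonMangoldt d := by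
    rw [sum_filter_of_ne]
    intro d _ hd
    exact vonMangoldt_ne_zero_iff.1 hd
  rw [h2]
  apply sum_le_sum_of_subset_of_nonneg
  · intro d hd
    rw [mem_filter, Nat.mem_divisors] at hd
    obtain ⟨⟨hdD, _⟩, hpp⟩ := hd
    obtain ⟨q, j, hq, hj, rfl⟩ := hpp
    have hq' : q.Prime := hq.nat_prime
    have h3 : j ≤ f q := by
      rw [← hDf]
      exact (hq'.pow_dvd_iff_le_factorization hD0).1 hdD
    have h4 : M q ≠ k := by
      intro h5
      rw [hf, Finsupp.filter_apply_neg (fun q => M q ≠ k) _ (by simpa using h5)] at h3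
      omega
    have h5 : j ≤ (n + k).factorization q := by
      rw [hf, Finsupp.filter_apply_pos (fun q => M q ≠ k) _ h4] at h3
      exact h3
    have h6 := pow_le_K n K q k (M q) ⟨hk, hkK⟩ (hM q).1 (Ne.symm h4) ((hM q).2 k hk hkK)
    have h7 : q ^ j ≤ q ^ ((n + k).factorization q) := Nat.pow_le_pow_right hq'.pos h5
    rw [mem_filter, mem_Icc]
    refine ⟨⟨Nat.one_le_pow _ _ hq'.pos, by omega⟩, ?_⟩
    exact (hq'.pow_dvd_iff_le_factorization hne).2 h5
  · intro d _ _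
    exact vonMangoldt_nonneg

/-- First moment bound. -/
lemma sum_mangoldt_le (n K : ℕ) (hK : 1 ≤ K) (S : Finset ℕ) (hS : S ⊆ Icc 1 K) :
    ∑ k ∈ S, ∑ d ∈ (Icc 1 K).filter (fun d => d ∣ n + k), vonMangoldt d ≤
      K * Real.log K * (2 + Real.log K) := by
  have hlogK : 0 ≤ Real.log K := Real.log_natCast_nonneg K
  calc ∑ k ∈ S, ∑ d ∈ (Icc 1 K).filter (fun d => d ∣ n + k), vonMangoldt d
      = ∑ d ∈ Icc 1 K, ∑ k ∈ S.filter (fun k => d ∣ n + k), vonMangoldt d := by
        simp_rw [sum_filter]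
        rw [sum_comm]
    _ = ∑ d ∈ Icc 1 K, (#(S.filter (fun k => d ∣ n + k)) : ℝ) * vonMangoldt d := by
        refine sum_congr rfl (fun d _ => ?_)
        rw [sum_const, nsmul_eq_mul]
    _ ≤ ∑ d ∈ Icc 1 K, ((K:ℝ) * (d:ℝ)⁻¹ + 1) * Real.log K := by
        apply sum_le_sum
        intro d hd
        rw [mem_Icc] at hd
        have hcard : #(S.filter (fun k => d ∣ n + k)) ≤ K / d + 1 := by
          refine le_trans ?_ (card_dvd_le n K d hd.1)
          exact card_le_card (filter_subset_filter _ hS)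
        have hcard' : (#(S.filter (fun k => d ∣ n + k)) : ℝ) ≤ (K:ℝ) * (d:ℝ)⁻¹ + 1 := by
          calc (#(S.filter (fun k => d ∣ n + k)) : ℝ) ≤ ((K / d + 1 : ℕ) : ℝ) := by exact_mod_cast hcard
            _ = ((K / d : ℕ) : ℝ) + 1 := by push_cast; ring
            _ ≤ (K:ℝ) / d + 1 := by
                gcongr
                exact Nat.cast_div_le
            _ = _ := by rw [div_eq_mul_inv]
        have hΛ : vonMangoldt d ≤ Real.log K := by
          refine vonMangoldt_le_log.trans ?_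
          apply Real.log_le_log
          · exact_mod_cast hd.1
          · exact_mod_cast hd.2
        have := @vonMangoldt_nonneg d
        have hd0 : (0:ℝ) ≤ (d:ℝ)⁻¹ := by positivity
        gcongr
    _ = (K * (∑ d ∈ Icc 1 K, (d:ℝ)⁻¹) + K) * Real.log K := by
        rw [← sum_mul, sum_add_distrib, ← mul_sum]
        simp
    _ ≤ (K * (1 + Real.log K) + K) * Real.log K := by
        have hh := harmonic_le_one_add_log K
        rw [harmonic_eq_sum_Icc] at hh
        push_cast at hh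
        gcongr
    _ = _ := by ring

/-- number of prime factors -/
lemma card_primeFactors_le (m L : ℕ) (hm : 0 < m) (hL : m < 2 ^ L) : #m.primeFactors ≤ L := by
  have h4 : 2 ^ #m.primeFactors ≤ m := by
    calc 2 ^ #m.primeFactors = ∏ p ∈ m.primeFactors, 2 := by simp
      _ ≤ ∏ p ∈ m.primeFactors, p := prod_le_prod' (fun p hp => (Nat.prime_of_mem_primeFactors hp).two_le)
      _ ≤ m := Nat.le_of_dvd hm (Nat.prod_primeFactors_dvd m)
  exact (Nat.pow_lt_pow_iff_right (by norm_num)).1 (lt_of_le_of_lt h4 hL) |>.le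

/-- primes in `T` and the others -/
lemma card_T (n K l L : ℕ) (hl : l ≤ K) (hn0 : 0 < n) (hn : n + K < 2 ^ L) :
    #{p ∈ Icc 1 K | p.Prime} ≤ #{p ∈ Icc 1 K | p.Prime ∧ ¬ p ∣ n ∧ l ≤ kk n p} + (l + 1) * L := by
  have hsub : {p ∈ Icc 1 K | p.Prime} ⊆ {p ∈ Icc 1 K | p.Prime ∧ ¬ p ∣ n ∧ l ≤ kk n p} ∪
      (range (l + 1)).biUnion (fun k => (n + k).primeFactors) := by
    intro p hp
    rw [mem_filter] at hp
    rw [mem_union, mem_filter, mem_biUnion]
    by_cases ha : p ∣ n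
    · right
      refine ⟨0, by simp, ?_⟩
      rw [Nat.mem_primeFactors]
      exact ⟨hp.2, by simpa using ha, by omega⟩
    · by_cases hb : l ≤ kk n p
      · left
        exact ⟨hp.1, hp.2, ha, hb⟩
      · right
        refine ⟨kk n p, by rw [mem_range]; omega, ?_⟩
        rw [Nat.mem_primeFactors]
        exact ⟨hp.2, dvd_kk n p hp.2, by omega⟩
  calc _ ≤ _ := card_le_card hsub
    _ ≤ _ := card_union_le _ _
    _ ≤ _ := by
      gcongr
      refine card_biUnion_le.trans ?_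
      calc ∑ k ∈ range (l + 1), #(n + k).primeFactors ≤ ∑ k ∈ range (l + 1), L := by
            apply sum_le_sum
            intro k hk
            rw [mem_range] at hk
            exact card_primeFactors_le _ _ (by omega) (by omega)
        _ = (l + 1) * L := by simp

/-- the cofactor of the largest power of `q` in `n + 1, ..., n + K` -/
def BB (n : ℕ) (M : ℕ → ℕ) (q : ℕ) : ℕ := (n + M q) / q ^ ((n + M q).factorization q)

lemma BB_mul (n : ℕ) (M : ℕ → ℕ) (q : ℕ) :
    BB n M q * q ^ ((n + M q).factorization q) = n + M q :=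
  Nat.div_mul_cancel (Nat.ordProj_dvd _ _)

lemma BB_pos (n : ℕ) (M : ℕ → ℕ) (q : ℕ) (h : 1 ≤ M q) : 0 < BB n M q := by
  have h1 := BB_mul n M q
  rcases Nat.eq_zero_or_pos (BB n M q) with h0 | h0
  · rw [h0] at h1
    omega
  · exact h0

/-- counting: many primes `q` with a small cofactor -/
lemma count (n K l : ℕ) (M : ℕ → ℕ) (C : ℝ) (h : Hp l K n)
    (hM : ∀ q, (1 ≤ M q ∧ M q ≤ K) ∧ ∀ k, 1 ≤ k → k ≤ K → (n + k).factorization q ≤ (n + M q).factorization q)
    (hC : C < Real.log n) (hn0 : 0 < n) (T : Finset ℕ) (hT : T = {p ∈ Icc 1 K | p.Prime ∧ ¬ p ∣ n ∧ l ≤ kk n p})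
    (S : Finset ℕ) (hS : S = T.image (kk n)) (G : Finset ℕ) (hG : G = S.filter (fun k => rr n M k ≤ C)) :
    2 * #G ≤ #{q ∈ Icc 1 K | q.Prime} + #{q ∈ Icc 1 K | q.Prime ∧ Real.log (BB n M q) ≤ C} := by
  classical
  set P : Finset ℕ := {q ∈ Icc 1 K | q.Prime} with hP
  set W : ℕ → Finset ℕ := fun k => P.filter (fun q => M q = k) with hW
  -- every prime factor of `n + k`, `k ∈ S`, is in `P`
  have hpf : ∀ k ∈ S, (n + k).primeFactors ⊆ P := by
    intro k hk q hq
    rw [hS, mem_image] at hk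
    obtain ⟨p, hp, rfl⟩ := hk
    rw [hT, mem_filter, mem_Icc] at hp
    obtain ⟨⟨hp1, hpK⟩, hpp, hpn, hpl⟩ := hp
    rw [Nat.mem_primeFactors] at hq
    rw [hP, mem_filter, mem_Icc]
    refine ⟨⟨hq.1.one_lt.le, ?_⟩, hq.1⟩
    by_contra hcon
    rw [not_le] at hcon
    have h1 := kk_lt n p hpp hpn
    have h2 := h (kk n p) (kk_pos n p hpp) hpl (by omega) p q hpp hq.1 (dvd_kk n p hpp) hq.2.1 h1 (by omega)
    omega
  have hSK : ∀ k ∈ S, 1 ≤ k ∧ k ≤ K := by
    intro k hk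
    rw [hS, mem_image] at hk
    obtain ⟨p, hp, rfl⟩ := hk
    rw [hT, mem_filter, mem_Icc] at hp
    exact ⟨kk_pos n p hp.2.1, by have := kk_lt n p hp.2.1 hp.2.2.1; omega⟩
  have hGS : ∀ k ∈ G, k ∈ S ∧ rr n M k ≤ C := by
    intro k hk
    rw [hG, mem_filter] at hk
    exact hk
  -- the part with `M q = k` is supported in `W k`
  have hsub : ∀ k ∈ S, (n + k).primeFactors.filter (fun q => M q = k) ⊆ W k := by
    intro k hk
    exact filter_subset_filter _ (hpf k hk)
  have hW1 : ∀ k ∈ G, 1 ≤ #(W k) := by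
    intro k hk
    obtain ⟨hkS, hkr⟩ := hGS k hk
    by_contra hcon
    have h0 : #(W k) = 0 := by omega
    rw [card_eq_zero] at h0
    have h1 := log_split n M k
    have h2 := hsub k hkS
    rw [h0, subset_empty] at h2
    rw [h2, sum_empty, add_zero] at h1
    have h3 : Real.log n ≤ Real.log ((n + k : ℕ) : ℝ) := by
      apply Real.log_le_log
      · exact_mod_cast hn0
      · exact_mod_cast (by omega : n ≤ n + k)
    linarith
  set G1 := G.filter (fun k => #(W k) = 1) with hG1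
  -- `G1 ⊆ image`
  have hG1le : #G1 ≤ #{q ∈ Icc 1 K | q.Prime ∧ Real.log (BB n M q) ≤ C} := by
    have : G1 ⊆ ({q ∈ Icc 1 K | q.Prime ∧ Real.log (BB n M q) ≤ C}).image M := by
      intro k hk
      rw [hG1, mem_filter] at hk
      obtain ⟨hkG, hk1⟩ := hk
      obtain ⟨hkS, hkr⟩ := hGS k hkG
      rw [card_eq_one] at hk1
      obtain ⟨q, hq⟩ := hk1
      have hqW : q ∈ W k := by rw [hq]; exact mem_singleton_self q
      rw [hW] at hqW
      simp only [mem_filter] at hqW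
      obtain ⟨hqP, hqM⟩ := hqW
      rw [hP, mem_filter] at hqP
      rw [mem_image]
      refine ⟨q, ?_, hqM⟩
      rw [mem_filter]
      refine ⟨hqP.1, hqP.2, ?_⟩
      have h1 := log_split n M k
      have h2 := hsub k hkS
      rw [hq] at h2
      have h3 : ∑ q ∈ (n + k).primeFactors.filter (fun q => M q = k),
          ((n + k).factorization q : ℝ) * Real.log q ≤ ∑ q ∈ {q}, ((n + k).factorization q : ℝ) * Real.log q := by
        apply sum_le_sum_of_subset_of_nonneg h2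
        intro i _ _
        exact mul_nonneg (Nat.cast_nonneg _) (Real.log_natCast_nonneg _)
      rw [sum_singleton] at h3
      have h4 : Real.log ((n + k : ℕ) : ℝ) = Real.log (BB n M q) +
          ((n + k).factorization q : ℝ) * Real.log q := by
        have h5 := BB_mul n M q
        rw [hqM] at h5
        have h6 : ((n + k : ℕ) : ℝ) = (BB n M q : ℝ) * (q : ℝ) ^ ((n + k).factorization q) := by
          exact_mod_cast h5.symm
        have h7 : (0:ℝ) < BB n M q := by exact_mod_cast BB_pos n M q (hM q).1.1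
        have h8 : (0:ℝ) < q := by exact_mod_cast hqP.2.pos
        rw [h6, Real.log_mul h7.ne' (pow_pos h8 _).ne', Real.log_pow]
      linarith
    exact (card_le_card this).trans card_image_le
  have hfib : ∑ k ∈ G, #(W k) ≤ #P := by
    have h1 : ∑ k ∈ G, #(W k) = #(P.filter (fun q => M q ∈ G)) := by
      rw [card_eq_sum_card_fiberwise (f := M) (t := G)]
      · apply sum_congr rfl
        intro k hk
        congr 1
        ext q
        simp only [hW, mem_filter]
        constructor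
        · rintro ⟨a, b⟩
          exact ⟨⟨a, b ▸ hk⟩, b⟩
        · rintro ⟨⟨a, _⟩, b⟩
          exact ⟨a, b⟩
      · intro q hq
        rw [mem_coe, mem_filter] at hq
        exact hq.2
    rw [h1]
    exact card_filter_le _ _
  have hlow : 2 * #G ≤ ∑ k ∈ G, #(W k) + #G1 := by
    have h1 : ∑ k ∈ G, (#(W k) + if #(W k) = 1 then 1 else 0) = ∑ k ∈ G, #(W k) + #G1 := by
      rw [sum_add_distrib, hG1, card_filter]
    rw [← h1]
    calc 2 * #G = ∑ k ∈ G, 2 := by simp [mul_comm]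
      _ ≤ _ := by
        apply sum_le_sum
        intro k hk
        have := hW1 k hk
        split_ifs with h2
        · omega
        · omega
  omega

/-- Main theorem: `Hp l K n` fails for all large `n`, `K = 2 ^ (16 s)`. -/
theorem not_Hp (s n L l : ℕ) (hs : 40 ≤ s) (hLs : 2 ^ s ≤ L) (hLs' : L < 2 ^ (s + 1))
    (hn : 2 ^ L ≤ n) (hn' : n < 2 ^ (L + 1)) (hl : l ≤ 2 ^ (8 * s)) : ¬ Hp l (2 ^ (16 * s)) n := by
  intro h
  have hbig := pow_big s hs
  have hs3 : s * s ^ 2 = s ^ 3 := by ring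
  have hs2 : 40 * s ^ 2 ≤ s ^ 3 := by rw [← hs3]; exact Nat.mul_le_mul_right _ hs
  have hs1 : 40 * s ≤ s ^ 2 := by rw [pow_two]; exact Nat.mul_le_mul_right _ hs
  set t := 16 * s with ht
  set K : ℕ := 2 ^ t with hK
  have hK1 : 1 ≤ K := Nat.one_le_two_pow
  obtain ⟨M, hM⟩ := exists_M n K hK1
  have hn0 : 0 < n := lt_of_lt_of_le (by positivity) hn
  have hKL : K ≤ 2 ^ (L + 1) := by
    apply Nat.pow_le_pow_right (by norm_num)
    omega
  have hnK : n + K < 2 ^ (L + 2) := by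
    have : 2 ^ (L + 2) = 2 ^ (L + 1) + 2 ^ (L + 1) := by ring
    omega
  have hlK : l ≤ K := hl.trans (Nat.pow_le_pow_right (by norm_num) (by omega))
  set P : Finset ℕ := {q ∈ Icc 1 K | q.Prime} with hP
  set T : Finset ℕ := {p ∈ Icc 1 K | p.Prime ∧ ¬ p ∣ n ∧ l ≤ kk n p} with hT
  set S : Finset ℕ := T.image (kk n) with hS
  have hTmem : ∀ p ∈ T, p.Prime ∧ ¬ p ∣ n ∧ p ≤ K ∧ l ≤ kk n p := by
    intro p hp
    rw [hT, mem_filter, mem_Icc] at hp
    exact ⟨hp.2.1, hp.2.2.1, hp.1.2, hp.2.2.2⟩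
  have hinj : Set.InjOn (kk n) (T : Set ℕ) := by
    intro p hp q hq hpq
    obtain ⟨h1, h2, h3, h4⟩ := hTmem p hp
    obtain ⟨h1', h2', h3', h4'⟩ := hTmem q hq
    have h5 := kk_lt n p h1 h2
    have h6 := kk_lt n q h1' h2'
    exact h (kk n p) (kk_pos n p h1) h4 (by omega) p q h1 h1' (dvd_kk n p h1) (hpq ▸ dvd_kk n q h1') h5
      (by omega)
  have hScard : #S = #T := card_image_of_injOn hinj
  have hSK : S ⊆ Icc 1 K := by
    intro k hk
    rw [hS, mem_image] at hk
    obtain ⟨p, hp, rfl⟩ := hk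
    obtain ⟨h1, h2, h3, h4⟩ := hTmem p hp
    rw [mem_Icc]
    exact ⟨kk_pos n p h1, by have := kk_lt n p h1 h2; omega⟩
  have hPT := card_T n K l (L + 2) hlK hn0 hnK
  rw [← hP, ← hT] at hPT
  have hPlow : (2:ℝ) ^ t / t - 3 ≤ #P := by
    have h1 := many_primes t 1 1 (by omega) (by norm_num) (by norm_num) 0
    have h2 : #{p ∈ Icc 1 (2 ^ t) | p.Prime ∧ ¬ p ∣ 1 ∧ 0 < p} ≤ #P := by
      apply card_le_card
      intro p hp
      rw [mem_filter] at hp
      rw [hP, mem_filter]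
      exact ⟨hp.1, hp.2.1⟩
    have h3 : (#{p ∈ Icc 1 (2 ^ t) | p.Prime ∧ ¬ p ∣ 1 ∧ 0 < p} : ℝ) ≤ #P := by exact_mod_cast h2
    have h4 : (2:ℝ) ^ t / t - 2 - (0 : ℕ) - (1 : ℕ) = (2:ℝ) ^ t / t - 3 := by push_cast; ring
    linarith
  have hmom : ∑ k ∈ S, rr n M k ≤ K * Real.log K * (2 + Real.log K) := by
    refine le_trans (sum_le_sum fun k hk => ?_) (sum_mangoldt_le n K hK1 S hSK)
    have := mem_Icc.1 (hSK hk)
    exact rr_le n K M hM k this.1 this.2
  -- real versions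
  have hsR : (40:ℝ) ≤ s := by exact_mod_cast hs
  have htR : (t:ℝ) = 16 * s := by rw [ht]; push_cast; ring
  have ht0 : (0:ℝ) < t := by rw [htR]; linarith
  have hX : (4096:ℝ) * s < 2 ^ s := by
    have : 4096 * s < 2 ^ s := by
      have h1 : 4096 * s ≤ 4096 * s ^ 3 := Nat.mul_le_mul_left _ (Nat.le_self_pow (by norm_num) s)
      have h2 : 0 < s ^ 3 := by positivity
      omega
    exact_mod_cast this
  set X : ℝ := (2:ℝ) ^ s with hXdef
  have hX1 : (1:ℝ) ≤ X := one_le_pow₀ (by norm_num)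
  have h2t : (2:ℝ) ^ t = X ^ 16 := by rw [hXdef, ← pow_mul, ht]; congr 1; ring
  have h28 : (2:ℝ) ^ (8 * s) = X ^ 8 := by rw [hXdef, ← pow_mul]; congr 1; ring
  have hKR : (K:ℝ) = 2 ^ t := by rw [hK]; push_cast; rfl
  have hmom2 : ∑ k ∈ S, rr n M k ≤ 3 * 2 ^ t * t ^ 2 := by
    refine hmom.trans ?_
    have hlg : Real.log (K : ℝ) ≤ t := by
      rw [hKR, Real.log_pow]
      have := Real.log_two_lt_d9
      nlinarith
    have hl0 : 0 ≤ Real.log (K : ℝ) := Real.log_natCast_nonneg _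
    have ht1 : (1:ℝ) ≤ t := by rw [htR]; linarith
    calc (K : ℝ) * Real.log (K : ℝ) * (2 + Real.log (K : ℝ))
        ≤ (K : ℝ) * t * (2 + t) := by gcongr
      _ ≤ (K : ℝ) * t * (3 * t) := by gcongr; linarith
      _ = _ := by rw [hKR]; ring
  have hrr0 : ∀ k, 0 ≤ rr n M k := by
    intro k
    exact sum_nonneg (fun i _ => mul_nonneg (Nat.cast_nonneg _) (Real.log_natCast_nonneg _))
  set G := S.filter (fun k => rr n M k ≤ 12 * t ^ 3) with hG
  have hbad : (#(S.filter (fun k => ¬ rr n M k ≤ 12 * t ^ 3)) : ℝ) * (12 * t ^ 3) ≤ 3 * 2 ^ t * t ^ 2 := by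
    refine le_trans ?_ hmom2
    rw [← nsmul_eq_mul, ← sum_const]
    calc ∑ k ∈ S.filter (fun k => ¬ rr n M k ≤ 12 * t ^ 3), (12 * (t:ℝ) ^ 3)
        ≤ ∑ k ∈ S.filter (fun k => ¬ rr n M k ≤ 12 * t ^ 3), rr n M k := by
          apply sum_le_sum
          intro k hk
          rw [mem_filter] at hk
          exact (not_le.1 hk.2).le
      _ ≤ _ := by
          apply sum_le_sum_of_subset_of_nonneg (filter_subset _ _)
          intro k _ _
          exact hrr0 k
  have hbad2 : (#(S.filter (fun k => ¬ rr n M k ≤ 12 * t ^ 3)) : ℝ) ≤ 2 ^ t / (4 * t) := by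
    rw [le_div_iff₀ (by positivity)]
    have h3 : (0:ℝ) < 3 * t ^ 2 := by positivity
    have h4 : (#(S.filter (fun k => ¬ rr n M k ≤ 12 * t ^ 3)) : ℝ) * (4 * t) * (3 * t ^ 2) ≤ 2 ^ t * (3 * t ^ 2) := by
      calc _ = (#(S.filter (fun k => ¬ rr n M k ≤ 12 * t ^ 3)) : ℝ) * (12 * t ^ 3) := by ring
        _ ≤ _ := hbad
        _ = _ := by ring
    exact le_of_mul_le_mul_right h4 h3
  have hsplit : (#G : ℝ) + #(S.filter (fun k => ¬ rr n M k ≤ 12 * t ^ 3)) = #T := by
    rw [hG, ← hScard, ← Nat.cast_add,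
      card_filter_add_card_filter_not (s := S) (fun k => rr n M k ≤ 12 * (t:ℝ) ^ 3)]
  have hLR : (L:ℝ) + 2 ≤ 3 * X := by
    have : L + 1 ≤ 2 ^ (s + 1) := hLs'
    have h5 : ((L + 1 : ℕ) : ℝ) ≤ ((2 ^ (s + 1) : ℕ) : ℝ) := by exact_mod_cast this
    push_cast at h5
    rw [pow_succ] at h5
    rw [hXdef]
    linarith
  have hlogn : 12 * (t:ℝ) ^ 3 < Real.log n := by
    have h1 : (L:ℝ) * Real.log 2 ≤ Real.log n := by
      rw [← Real.log_pow]
      apply Real.log_le_log (by positivity)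
      exact_mod_cast hn
    have h2 : (4000000:ℝ) * s ^ 3 ≤ L := by exact_mod_cast hbig.trans hLs
    have h3 := Real.log_two_gt_d9
    have hs0 : (0:ℝ) < (s:ℝ) ^ 3 := by positivity
    have h4 : (4000000:ℝ) * s ^ 3 * (1 / 2) ≤ L * Real.log 2 := by
      apply mul_le_mul h2 (by linarith) (by norm_num) (Nat.cast_nonneg _)
    rw [htR]
    nlinarith
  set G2 : Finset ℕ := {q ∈ Icc 1 K | q.Prime ∧ Real.log (BB n M q) ≤ 12 * t ^ 3} with hG2
  have hcount := count n K l M (12 * t ^ 3) h hM hlogn hn0 T hT S hS G hG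
  rw [← hP, ← hG2] at hcount
  set G3 := G2.filter (fun q => 2 ^ (8 * s) < q) with hG3
  have hG3c : #G2 ≤ #G3 + 2 ^ (8 * s) := by
    have h1 : G2 ⊆ G3 ∪ Icc 1 (2 ^ (8 * s)) := by
      intro q hq
      rw [mem_union, mem_Icc]
      by_cases h2 : 2 ^ (8 * s) < q
      · left
        rw [hG3, mem_filter]
        exact ⟨hq, h2⟩
      · right
        rw [hG2, mem_filter, mem_Icc] at hq
        omega
    calc #G2 ≤ _ := card_le_card h1
      _ ≤ _ := card_union_le _ _
      _ = _ := by simp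
  have hG3low : (2:ℝ) ^ t / (4 * t) ≤ #G3 := by
    have a1 : (2:ℝ) * #G ≤ #P + #G2 := by exact_mod_cast hcount
    have a2 : (#G2 : ℝ) ≤ #G3 + X ^ 8 := by
      rw [← h28]
      exact_mod_cast hG3c
    have a3 : (#P : ℝ) ≤ #T + (l + 1) * (L + 2) := by exact_mod_cast hPT
    have a4 : ((l:ℝ) + 1) * (L + 2) ≤ (2 * X ^ 8) * (3 * X) := by
      have b1 : (l:ℝ) + 1 ≤ 2 * X ^ 8 := by
        have b2 : (l:ℝ) ≤ X ^ 8 := by
          rw [← h28]
          exact_mod_cast hl
        have b3 : (1:ℝ) ≤ X ^ 8 := one_le_pow₀ hX1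
        linarith
      exact mul_le_mul b1 hLR (by positivity) (by positivity)
    have h6 : (2:ℝ) ^ t / t = 4 * ((2:ℝ) ^ t / (4 * t)) := by field_simp
    have h7 : 3 + X ^ 8 + 2 * ((2 * X ^ 8) * (3 * X)) ≤ (2:ℝ) ^ t / (4 * t) := by
      rw [le_div_iff₀ (by positivity), h2t, htR]
      have b1 : X ^ 8 ≤ X ^ 9 := pow_le_pow_right₀ hX1 (by norm_num)
      have b2 : (1:ℝ) ≤ X ^ 9 := one_le_pow₀ hX1
      have b3 : 3 + X ^ 8 + 2 * ((2 * X ^ 8) * (3 * X)) ≤ 16 * X ^ 9 := by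
        have : 2 * ((2 * X ^ 8) * (3 * X)) = 12 * X ^ 9 := by ring
        linarith
      calc (3 + X ^ 8 + 2 * ((2 * X ^ 8) * (3 * X))) * (4 * (16 * s)) ≤ (16 * X ^ 9) * (4 * (16 * s)) := by gcongr
        _ = 1024 * s * X ^ 9 := by ring
        _ ≤ X * X ^ 9 := by gcongr; linarith
        _ = X ^ 10 := by ring
        _ ≤ X ^ 16 := pow_le_pow_right₀ hX1 (by norm_num)
    linarith
  -- pigeonhole
  have hG3mem : ∀ q ∈ G3, q.Prime ∧ 2 ^ (8 * s) < q ∧ q ≤ K ∧ Real.log (BB n M q) ≤ 12 * t ^ 3 := by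
    intro q hq
    rw [hG3, mem_filter, hG2, mem_filter, mem_Icc] at hq
    exact ⟨hq.1.2.1, hq.2, hq.1.1.2, hq.1.2.2⟩
  have hal : ∀ q ∈ G3, (n + M q).factorization q < 2 ^ (s + 1) + 1 := by
    intro q hq
    obtain ⟨h1, h2, h3, h3'⟩ := hG3mem q hq
    have h4 : 2 ^ (n + M q).factorization q < 2 ^ (L + 2) := by
      calc 2 ^ (n + M q).factorization q ≤ q ^ (n + M q).factorization q := Nat.pow_le_pow_left h1.two_le _
        _ ≤ n + M q := Nat.le_of_dvd (by omega) (Nat.ordProj_dvd _ _)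
        _ < 2 ^ (L + 2) := by
            have := (hM q).1.2
            omega
    have h5 : (n + M q).factorization q < L + 2 := (Nat.pow_lt_pow_iff_right (by norm_num)).1 h4
    omega
  obtain ⟨p, hp, q, hq, hpq, hfpq⟩ : ∃ p ∈ G3, ∃ q ∈ G3, p ≠ q ∧
      (p / 2 ^ (2 * s), (n + M p).factorization p) = (q / 2 ^ (2 * s), (n + M q).factorization q) := by
    apply exists_ne_map_eq_of_card_lt_of_maps_to
      (t := range (2 ^ (14 * s) + 1) ×ˢ range (2 ^ (s + 1) + 1))
    · rw [card_product, card_range, card_range]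
      have hreal : (((2 ^ (14 * s) + 1) * (2 ^ (s + 1) + 1) : ℕ) : ℝ) < #G3 := by
        refine lt_of_lt_of_le ?_ hG3low
        push_cast
        rw [lt_div_iff₀ (by positivity), h2t, htR]
        have h14 : (2:ℝ) ^ (14 * s) = X ^ 14 := by rw [hXdef, ← pow_mul]; congr 1; ring
        have h15 : (2:ℝ) ^ (s + 1) = 2 * X := by rw [hXdef, pow_succ]; ring
        rw [h14, h15]
        have h16 : (1:ℝ) ≤ X ^ 14 := one_le_pow₀ hX1
        calc (X ^ 14 + 1) * (2 * X + 1) * (4 * (16 * s)) ≤ (2 * X ^ 14) * (4 * X) * (4 * (16 * s)) := by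
              gcongr <;> linarith
          _ = (512 * s) * X ^ 15 := by ring
          _ < X * X ^ 15 := by gcongr; linarith
          _ = X ^ 16 := by ring
      exact_mod_cast hreal
    · intro p hp
      simp only [coe_product, Set.mem_prod, mem_coe, mem_range]
      refine ⟨?_, hal p hp⟩
      have h1 := (hG3mem p hp).2.2.1
      have h2 : p / 2 ^ (2 * s) ≤ 2 ^ t / 2 ^ (2 * s) := Nat.div_le_div_right h1
      have h3 : 2 ^ t / 2 ^ (2 * s) = 2 ^ (14 * s) := by
        rw [Nat.pow_div (by omega) (by norm_num)]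
        congr 1
        omega
      omega
  have key : ∀ x ∈ G3, ∀ y ∈ G3, x < y →
      (x / 2 ^ (2 * s), (n + M x).factorization x) = (y / 2 ^ (2 * s), (n + M y).factorization y) → False := by
    intro x hx y hy hxy hf
    rw [Prod.mk.injEq] at hf
    obtain ⟨hf1, hf2⟩ := hf
    obtain ⟨hxp, hx8, hxK, hxl⟩ := hG3mem x hx
    obtain ⟨hyp, hy8, hyK, hyl⟩ := hG3mem y hy
    have hAle : ∀ z, Real.log (BB n M z) ≤ 12 * t ^ 3 → BB n M z ≤ 2 ^ (73728 * s ^ 3) := by
      intro z hlz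
      have hz0 : (0:ℝ) < BB n M z := by exact_mod_cast BB_pos n M z (hM z).1.1
      have h1 : (BB n M z : ℝ) ≤ (2:ℝ) ^ (73728 * s ^ 3) := by
        rw [← Real.log_le_log_iff hz0 (by positivity), Real.log_pow]
        refine hlz.trans ?_
        rw [htR]
        push_cast
        have := Real.log_two_gt_d9
        have hs0 : (0:ℝ) ≤ (s:ℝ) ^ 3 := by positivity
        nlinarith
      exact_mod_cast h1
    have hyx : y - x ≤ 2 ^ (2 * s) := by
      have h1 := Nat.div_add_mod x (2 ^ (2 * s))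
      have h2 := Nat.div_add_mod y (2 ^ (2 * s))
      have h3 := Nat.mod_lt x (show 0 < 2 ^ (2 * s) by positivity)
      have h4 := Nat.mod_lt y (show 0 < 2 ^ (2 * s) by positivity)
      rw [hf1] at h1
      omega
    have hα1 := hal x hx
    refine dioph_step s n L x y ((n + M x).factorization x) (BB n M x) (BB n M y) hs hLs hn (by omega) hxy
      hx8.le hyK hyx (BB_pos n M y (hM y).1.1) (hAle x hxl) (hAle y hyl) ?_ ?_
    · rw [BB_mul]
      omega
    · have e1 : (BB n M y : ℝ) * (y:ℝ) ^ (n + M x).factorization x = (n:ℝ) + M y := by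
        rw [hf2]
        exact_mod_cast BB_mul n M y
      have e2 : (BB n M x : ℝ) * (x:ℝ) ^ (n + M x).factorization x = (n:ℝ) + M x := by
        exact_mod_cast BB_mul n M x
      rw [e1, e2]
      have h1 := (hM x).1
      have h2 := (hM y).1
      have h3 : (M x : ℝ) ≤ ((2 ^ (16 * s) : ℕ) : ℝ) := by exact_mod_cast h1.2
      have h4 : (M y : ℝ) ≤ ((2 ^ (16 * s) : ℕ) : ℝ) := by exact_mod_cast h2.2
      have h5 : (1:ℝ) ≤ M x := by exact_mod_cast h1.1
      have h6 : (1:ℝ) ≤ M y := by exact_mod_cast h2.1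
      rw [abs_lt]
      constructor <;> linarith
  rcases lt_or_gt_of_ne hpq with hlt | hlt
  · exact key p hp q hq hlt hfpq
  · exact key q hq p hp hlt hfpq.symm

/-- for every `l` and all large `n` there is `k` with `max 1 l ≤ k ≤ (log n) ^ 16` and two primes `> k` dividing
`n + k` -/
theorem exists_two_primes (l : ℕ) : ∃ N0 : ℕ, ∀ n, N0 ≤ n → ∃ k, 1 ≤ k ∧ l ≤ k ∧ k ≤ Nat.log 2 n ^ 16 ∧
    ∃ p q : ℕ, p.Prime ∧ q.Prime ∧ p ∣ n + k ∧ q ∣ n + k ∧ k < p ∧ k < q ∧ p ≠ q := by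
  refine ⟨2 ^ (2 ^ (40 + l)), fun n hn => ?_⟩
  have hn0 : n ≠ 0 := by
    have : 0 < 2 ^ (2 ^ (40 + l)) := Nat.two_pow_pos _
    omega
  have hL : 2 ^ (40 + l) ≤ Nat.log 2 n := (Nat.le_log_iff_pow_le (by norm_num) hn0).2 hn
  have hL0 : Nat.log 2 n ≠ 0 := by
    have : 0 < 2 ^ (40 + l) := Nat.two_pow_pos _
    omega
  have hs : 40 + l ≤ Nat.log 2 (Nat.log 2 n) := (Nat.le_log_iff_pow_le (by norm_num) hL0).2 hL
  have hl : l ≤ 2 ^ (8 * Nat.log 2 (Nat.log 2 n)) := by
    have h1 : l < 2 ^ l := Nat.lt_two_pow_self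
    have h2 : 2 ^ l ≤ 2 ^ (8 * Nat.log 2 (Nat.log 2 n)) := Nat.pow_le_pow_right (by norm_num) (by omega)
    omega
  have key := not_Hp (Nat.log 2 (Nat.log 2 n)) n (Nat.log 2 n) l (by omega) (Nat.pow_log_le_self 2 hL0)
    (Nat.lt_pow_succ_log_self (by norm_num) _) (Nat.pow_log_le_self 2 hn0)
    (Nat.lt_pow_succ_log_self (by norm_num) _) hl
  unfold Hp at key
  push Not at key
  obtain ⟨k, h1, h2, h3, p, q, hp, hq, hpk, hqk, hp', hq', hne⟩ := key
  refine ⟨k, h1, h2, h3.trans ?_, p, q, hp, hq, hpk, hqk, hp', hq', hne⟩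
  calc 2 ^ (16 * Nat.log 2 (Nat.log 2 n)) = (2 ^ Nat.log 2 (Nat.log 2 n)) ^ 16 := by rw [← pow_mul]; congr 1; ring
    _ ≤ Nat.log 2 n ^ 16 := Nat.pow_le_pow_left (Nat.pow_log_le_self 2 hL0) _

end Pool.Agent.Helper57.V1
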